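import Pool.Agent.Helper848.Lazy.Defs

namespace LazyCops

namespace FI

open Finset

theorem logsq_aux (a b : ℝ) (hb : 0 < b) (hab : b ≤ a) :
    a * b * (Real.log a - Real.log b) ^ 2 ≤ 4 * (a - b) ^ 2 := by
  have ha : 0 < a := hb.trans_le hab
  set u := √a with hu
  set v := √b with hv
  have hu0 : 0 < u := Real.sqrt_pos.mpr ha
  have hv0 : 0 < v := Real.sqrt_pos.mpr hb
  have hua : u ^ 2 = a := Real.sq_sqrt ha.le
  have hvb : v ^ 2 = b := Real.sq_sqrt hb.le
  have huv : v ≤ u := Real.sqrt_le_sqrt hab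
  have h1 : Real.log (u / v) ≤ u / v - 1 := Real.log_le_sub_one_of_pos (by positivity)
  have h2 : 0 ≤ Real.log (u / v) := Real.log_nonneg ((one_le_div hv0).mpr huv)
  have h3 : Real.log a - Real.log b = 2 * Real.log (u / v) := by
    rw [← hua, ← hvb, Real.log_pow, Real.log_pow, Real.log_div hu0.ne' hv0.ne']
    push_cast; ring
  have h4 : v * Real.log (u / v) ≤ u - v := by
    have := mul_le_mul_of_nonneg_left h1 hv0.le
    rw [mul_sub, mul_div_cancel₀ _ hv0.ne'] at this
    linarith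
  have h5 : (v * Real.log (u / v)) ^ 2 ≤ (u - v) ^ 2 :=
    pow_le_pow_left₀ (by positivity) h4 2
  rw [h3, ← hua, ← hvb]
  have h6 : u ^ 2 * (v * Real.log (u / v)) ^ 2 ≤ u ^ 2 * (u - v) ^ 2 :=
    mul_le_mul_of_nonneg_left h5 (by positivity)
  have h7 : u ^ 2 * (u - v) ^ 2 ≤ (u + v) ^ 2 * (u - v) ^ 2 :=
    mul_le_mul_of_nonneg_right (by nlinarith) (by positivity)
  nlinarith

theorem logsq (a b : ℝ) (ha : 0 < a) (hb : 0 < b) :
    a * b * (Real.log a - Real.log b) ^ 2 ≤ 4 * (a - b) ^ 2 := by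
  rcases le_total b a with h | h
  · exact logsq_aux a b hb h
  · have := logsq_aux b a ha h
    nlinarith

theorem J_nonneg (t : ℝ) (ht : 0 ≤ t) : 0 ≤ J t := by unfold J; positivity

theorem J_sq (t : ℝ) (ht : 0 ≤ t) (ht1 : t ≤ 1) : J t ^ 2 = t ^ 2 * ((1 - Real.log t) / 2) := by
  unfold J
  rw [mul_pow, Real.sq_sqrt]
  have := Real.log_nonpos ht ht1
  linarith

/-- two-point inequality -/
theorem J_two_point (a b : ℝ) (ha : 0 ≤ a) (ha1 : a ≤ 1) (hb : 0 ≤ b) (hb1 : b ≤ 1) :
    J ((a + b) / 2) ^ 2 ≤ ((J a + J b) / 2) ^ 2 + ((a - b) / 2) ^ 2 := by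
  have hJ0 : J 0 = 0 := by unfold J; simp
  have hzero : ∀ a : ℝ, 0 ≤ a → a ≤ 1 → J (a / 2) ^ 2 ≤ (J a / 2) ^ 2 + (a / 2) ^ 2 := by
    intro a ha ha1
    rcases ha.eq_or_lt with h | h
    · rw [← h]; simp [hJ0]
    · rw [J_sq _ (by linarith) (by linarith), div_pow (J a), J_sq a ha ha1,
        Real.log_div h.ne' (by norm_num)]
      have h1 : Real.log 2 ≤ 1 := by
        have := Real.log_two_lt_d9
        linarith
      nlinarith [sq_nonneg a]
  rcases ha.eq_or_lt with h | h
  · rw [← h, hJ0, zero_add, zero_add, zero_sub, neg_div, neg_sq]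
    exact hzero b hb hb1
  rcases hb.eq_or_lt with h' | h'
  · rw [← h', hJ0, add_zero, add_zero, sub_zero]
    exact hzero a ha ha1
  -- both positive
  set m := (a + b) / 2 with hm
  have hm0 : 0 < m := by rw [hm]; positivity
  have hm1 : m ≤ 1 := by rw [hm]; linarith
  have hx := Real.log_nonpos ha ha1
  have hy := Real.log_nonpos hb hb1
  set x := Real.log a with hxdef
  set y := Real.log b with hydef
  set z := Real.log m with hzdef
  set p := √(1 - x) with hp
  set r := √(1 - y) with hr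
  have hp2 : p ^ 2 = 1 - x := Real.sq_sqrt (by linarith)
  have hr2 : r ^ 2 = 1 - y := Real.sq_sqrt (by linarith)
  have hp1 : 1 ≤ p := by rw [hp]; apply Real.one_le_sqrt.mpr; linarith
  have hr1 : 1 ≤ r := by rw [hr]; apply Real.one_le_sqrt.mpr; linarith
  have hJa : J a = a * (p / √2) := by
    unfold J; rw [Real.sqrt_div (by linarith)]
  have hJb : J b = b * (r / √2) := by
    unfold J; rw [Real.sqrt_div (by linarith)]
  have h2 : (√2 : ℝ) ^ 2 = 2 := Real.sq_sqrt (by norm_num)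
  have hR : ((J a + J b) / 2) ^ 2 = (a * p + b * r) ^ 2 / 8 := by
    rw [hJa, hJb]
    have : (a * (p / √2) + b * (r / √2)) / 2 = (a * p + b * r) / (2 * √2) := by
      field_simp
    rw [this, div_pow, mul_pow, h2]
    norm_num
  rw [hR, J_sq m hm0.le hm1]
  -- the estimate for p r
  have hpr : (p - r) ^ 2 * 4 ≤ (x - y) ^ 2 := by
    have h3 : (p - r) * (p + r) = y - x := by nlinarith
    have h4 : ((p - r) * (p + r)) ^ 2 = (y - x) ^ 2 := by rw [h3]
    have h5 : 4 ≤ (p + r) ^ 2 := by nlinarith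
    have h6 : (p - r) ^ 2 * 4 ≤ (p - r) ^ 2 * (p + r) ^ 2 :=
      mul_le_mul_of_nonneg_left h5 (sq_nonneg _)
    rw [mul_pow] at h4
    nlinarith
  have hlog := logsq a b h h'
  rw [← hxdef, ← hydef] at hlog
  -- logarithms relative to the mean
  have hlm : ∀ c : ℝ, 0 < c → m * (Real.log c - z) ≤ c - m := by
    intro c hc
    have h3 := Real.log_le_sub_one_of_pos (show 0 < c / m by positivity)
    rw [Real.log_div hc.ne' hm0.ne'] at h3
    have h4 := mul_le_mul_of_nonneg_left h3 hm0.le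
    rw [mul_sub m (c / m), mul_div_cancel₀ _ hm0.ne'] at h4
    linarith
  have h3 := mul_le_mul_of_nonneg_left (hlm a h) ha
  have h4 := mul_le_mul_of_nonneg_left (hlm b h') hb
  rw [← hxdef] at h3
  rw [← hydef] at h4
  have h5 : a * b * ((p - r) ^ 2 * 4) ≤ a * b * (x - y) ^ 2 :=
    mul_le_mul_of_nonneg_left hpr (by positivity)
  have hab : a + b = 2 * m := by rw [hm]; ring
  have h6 : (a * p + b * r) ^ 2 = a ^ 2 * (1 - x) + b ^ 2 * (1 - y) +
      a * b * ((1 - x) + (1 - y)) - a * b * (p - r) ^ 2 := by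
    rw [← hp2, ← hr2]; ring
  have h7 : m ^ 2 * (1 - z) * 4 = (a + b) * (a * (1 - z) + b * (1 - z)) := by
    rw [hm]; ring
  rw [h6]
  have hb' : b = 2 * m - a := by linarith
  have e1 : a ^ 2 * (1 - x) + b ^ 2 * (1 - y) + a * b * ((1 - x) + (1 - y)) =
      4 * m ^ 2 * (1 - z) - 2 * (a * (m * (x - z)) + b * (m * (y - z))) := by
    have : a ^ 2 * (1 - x) + b ^ 2 * (1 - y) + a * b * ((1 - x) + (1 - y)) =
      (a + b) * (a * (1 - x) + b * (1 - y)) := by ring
    rw [this, hab]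
    have h8 : 4 * m ^ 2 * (1 - z) = 2 * m * ((a + b) * (1 - z)) := by rw [hab]; ring
    rw [h8]; ring
  have e2 : a * (a - m) + b * (b - m) = (a - b) ^ 2 / 2 := by rw [hm]; ring
  rw [e1]
  nlinarith

theorem minkowski_sum {ι : Type*} (s : Finset ι) (V h : ι → ℝ) :
    √((∑ x ∈ s, V x) ^ 2 + (∑ x ∈ s, h x) ^ 2) ≤ ∑ x ∈ s, √(V x ^ 2 + h x ^ 2) := by
  have key : ∀ p q : ℝ, √(p ^ 2 + q ^ 2) = ‖(⟨p, q⟩ : ℂ)‖ := by
    intro p q
    rw [Complex.norm_eq_sqrt_sq_add_sq]
  simp_rw [key]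
  have h1 : (⟨∑ x ∈ s, V x, ∑ x ∈ s, h x⟩ : ℂ) = ∑ x ∈ s, (⟨V x, h x⟩ : ℂ) := by
    apply Complex.ext
    · simp
    · simp
  rw [h1]
  exact norm_sum_le _ _

theorem sum_cube_succ {n : ℕ} (g : Cube (n + 1) → ℝ) :
    ∑ x, g x = ∑ x : Cube n, g (Fin.cons false x) + ∑ x : Cube n, g (Fin.cons true x) := by
  have h := (Fin.consEquiv (fun _ : Fin (n + 1) => Bool)).sum_comp g
  rw [← h, Fintype.sum_prod_type, Fintype.sum_bool, add_comm]
  rfl

theorem fl_cons_zero {n : ℕ} (b : Bool) (x : Cube n) :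
    fl (Fin.cons b x : Cube (n + 1)) 0 = Fin.cons (!b) x := by
  unfold fl
  rw [Fin.update_cons_zero, Fin.cons_zero]

theorem fl_cons_succ {n : ℕ} (b : Bool) (x : Cube n) (i : Fin n) :
    fl (Fin.cons b x : Cube (n + 1)) i.succ = Fin.cons b (fl x i) := by
  unfold fl
  rw [Fin.cons_update, Fin.cons_succ]

/-- TARGET: functional inequality on the cube, with an arbitrary charging of the edges -/
theorem func_ineq (n : ℕ) (f : Cube n → ℝ) (hf0 : ∀ x, 0 ≤ f x) (hf1 : ∀ x, f x ≤ 1)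
    (ch : Cube n → Fin n → Prop) [∀ x i, Decidable (ch x i)]
    (hch : ∀ x i, ch x i ∨ ch (fl x i) i) :
    2 ^ n * J ((∑ x, f x) / 2 ^ n) ≤
      ∑ x, √(J (f x) ^ 2 + ∑ i, if ch x i then (f x - f (fl x i)) ^ 2 else 0) := by
  classical
  induction n with
  | zero =>
    rw [Fintype.sum_unique, Fintype.sum_unique]
    simp only [pow_zero, div_one, one_mul, univ_eq_empty, sum_empty, add_zero]
    rw [Real.sqrt_sq (J_nonneg _ (hf0 _))]
  | succ n ih =>
    have ih' : ∀ b : Bool, 2 ^ n * J ((∑ x : Cube n, f (Fin.cons b x)) / 2 ^ n) ≤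
        ∑ x : Cube n, √(J (f (Fin.cons b x)) ^ 2 + ∑ i : Fin n, if ch (Fin.cons b x) i.succ then
          (f (Fin.cons b x) - f (Fin.cons b (fl x i))) ^ 2 else 0) := by
      intro b
      refine ih (fun x => f (Fin.cons b x)) (fun x => hf0 _) (fun x => hf1 _)
        (fun x i => ch (Fin.cons b x) i.succ) ?_
      intro x i
      have := hch (Fin.cons b x) i.succ
      rwa [fl_cons_succ] at this
    let A : Bool → ℝ := fun b => ∑ x : Cube n, f (Fin.cons b x)
    let V : Bool → Cube n → ℝ := fun b x => √(J (f (Fin.cons b x)) ^ 2 +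
      ∑ i : Fin n, if ch (Fin.cons b x) i.succ then
        (f (Fin.cons b x) - f (Fin.cons b (fl x i))) ^ 2 else 0)
    let h : Bool → Cube n → ℝ := fun b x => if ch (Fin.cons b x) 0 then
      |f (Fin.cons b x) - f (Fin.cons (!b) x)| else 0
    have hterm : ∀ (b : Bool) (x : Cube n),
        √(J (f (Fin.cons b x)) ^ 2 + ∑ i, if ch (Fin.cons b x) i then
          (f (Fin.cons b x) - f (fl (Fin.cons b x) i)) ^ 2 else 0) =
        √(V b x ^ 2 + h b x ^ 2) := by
      intro b x
      congr 1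
      have h1 : V b x ^ 2 = J (f (Fin.cons b x)) ^ 2 +
          ∑ i : Fin n, if ch (Fin.cons b x) i.succ then
            (f (Fin.cons b x) - f (Fin.cons b (fl x i))) ^ 2 else 0 := by
        apply Real.sq_sqrt
        refine add_nonneg (sq_nonneg _) (Finset.sum_nonneg fun i _ => ?_)
        split_ifs <;> positivity
      have h2 : h b x ^ 2 = if ch (Fin.cons b x) 0 then
          (f (Fin.cons b x) - f (Fin.cons (!b) x)) ^ 2 else 0 := by
        simp only [h]
        split_ifs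
        · rw [sq_abs]
        · simp
      rw [h1, h2, Fin.sum_univ_succ, fl_cons_zero]
      simp_rw [fl_cons_succ]
      ring
    have hsum : ∑ x : Cube (n + 1), √(J (f x) ^ 2 + ∑ i, if ch x i then
          (f x - f (fl x i)) ^ 2 else 0) =
        ∑ p : Bool × Cube n, √(V p.1 p.2 ^ 2 + h p.1 p.2 ^ 2) := by
      rw [sum_cube_succ, Fintype.sum_prod_type, Fintype.sum_bool, add_comm]
      simp_rw [hterm]
    rw [hsum]
    refine le_trans ?_ (minkowski_sum Finset.univ (fun p : Bool × Cube n => V p.1 p.2)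
      (fun p => h p.1 p.2))
    rw [Fintype.sum_prod_type, Fintype.sum_prod_type, Fintype.sum_bool, Fintype.sum_bool]
    have hN : (0 : ℝ) < 2 ^ n := by positivity
    have hcard : (Fintype.card (Cube n) : ℝ) = 2 ^ n := by simp [Cube]
    have hA0 : ∀ b, 0 ≤ A b := fun b => Finset.sum_nonneg fun x _ => hf0 _
    have hA1 : ∀ b, A b ≤ 2 ^ n := by
      intro b
      rw [← hcard]
      calc A b ≤ ∑ _x : Cube n, (1 : ℝ) := Finset.sum_le_sum fun x _ => hf1 _
        _ = Fintype.card (Cube n) := by simp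
    have ha0 : ∀ b, 0 ≤ A b / 2 ^ n := fun b => div_nonneg (hA0 b) hN.le
    have ha1 : ∀ b, A b / 2 ^ n ≤ 1 := fun b => (div_le_one hN).mpr (hA1 b)
    have hV : ∀ b, 2 ^ n * J (A b / 2 ^ n) ≤ ∑ x, V b x := ih'
    have hh : |A true - A false| ≤ ∑ x, h true x + ∑ x, h false x := by
      simp only [A]
      rw [← Finset.sum_sub_distrib, ← Finset.sum_add_distrib]
      refine (Finset.abs_sum_le_sum_abs _ _).trans (Finset.sum_le_sum fun x _ => ?_)
      have h1 := hch (Fin.cons true x) 0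
      rw [fl_cons_zero] at h1
      simp only [h, Bool.not_true, Bool.not_false] at h1 ⊢
      rcases h1 with h1 | h1
      · rw [if_pos h1]
        have : 0 ≤ (if ch (Fin.cons false x) 0 then
            |f (Fin.cons false x) - f (Fin.cons true x)| else 0) := by
          split_ifs <;> positivity
        linarith
      · rw [if_pos h1, abs_sub_comm (f (Fin.cons false x))]
        have : 0 ≤ (if ch (Fin.cons true x) 0 then
            |f (Fin.cons true x) - f (Fin.cons false x)| else 0) := by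
          split_ifs <;> positivity
        linarith
    have h2 := J_two_point (A true / 2 ^ n) (A false / 2 ^ n) (ha0 _) (ha1 _) (ha0 _) (ha1 _)
    have hmean : (∑ x, f x) / 2 ^ (n + 1) = (A true / 2 ^ n + A false / 2 ^ n) / 2 := by
      rw [sum_cube_succ]
      change (A false + A true) / 2 ^ (n + 1) = _
      rw [pow_succ]
      field_simp
      ring
    rw [hmean]
    apply Real.le_sqrt_of_sq_le
    have hJt := J_nonneg _ (ha0 true)
    have hJf := J_nonneg _ (ha0 false)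
    have h3 : (2 ^ n * J (A true / 2 ^ n) + 2 ^ n * J (A false / 2 ^ n)) ^ 2 ≤
        (∑ x, V true x + ∑ x, V false x) ^ 2 :=
      pow_le_pow_left₀ (by positivity) (add_le_add (hV true) (hV false)) 2
    have h4 : |A true - A false| ^ 2 ≤ (∑ x, h true x + ∑ x, h false x) ^ 2 :=
      pow_le_pow_left₀ (abs_nonneg _) hh 2
    rw [sq_abs] at h4
    have h5 : (2 ^ (n + 1) * J ((A true / 2 ^ n + A false / 2 ^ n) / 2)) ^ 2 ≤
        (2 ^ (n + 1)) ^ 2 * (((J (A true / 2 ^ n) + J (A false / 2 ^ n)) / 2) ^ 2 +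
          ((A true / 2 ^ n - A false / 2 ^ n) / 2) ^ 2) := by
      rw [mul_pow]
      exact mul_le_mul_of_nonneg_left h2 (by positivity)
    refine h5.trans ?_
    have h6 : (2 ^ (n + 1)) ^ 2 * (((J (A true / 2 ^ n) + J (A false / 2 ^ n)) / 2) ^ 2 +
          ((A true / 2 ^ n - A false / 2 ^ n) / 2) ^ 2) =
        (2 ^ n * J (A true / 2 ^ n) + 2 ^ n * J (A false / 2 ^ n)) ^ 2 +
          (A true - A false) ^ 2 := by
      have h7 : (2 : ℝ) ^ (n + 1) = 2 * 2 ^ n := by ring
      rw [h7]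
      field_simp
    rw [h6]
    linarith

end FI

end LazyCops
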