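import Pool.Agent.Helper848.Lazy.CoreDefs
import Pool.Agent.Helper848.Lazy.FuncIneq

namespace LazyCops

namespace CB

open Finset






theorem J_nonneg {t : ℝ} (ht : 0 ≤ t) : 0 ≤ J t := mul_nonneg ht (Real.sqrt_nonneg _)

theorem J_le_one {t : ℝ} (ht : 0 ≤ t) (ht1 : t ≤ 1) : J t ≤ 1 := by
  rcases ht.eq_or_lt with h | h
  · subst h; simp [J]
  · unfold J
    have h1 : Real.log t ≥ 1 - 1 / t := by
      have := Real.one_sub_inv_le_log_of_pos h
      simpa using this
    have h2 : 0 ≤ 1 - Real.log t := by
      have := Real.log_nonpos ht ht1; linarith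
    have h3 : t ^ 2 * ((1 - Real.log t) / 2) ≤ 1 := by
      have h4 : t ^ 2 * ((1 - Real.log t) / 2) ≤ t ^ 2 * ((1 / t) / 2) := by
        apply mul_le_mul_of_nonneg_left _ (by positivity)
        linarith
      have h5 : t ^ 2 * ((1 / t) / 2) = t / 2 := by field_simp
      linarith
    have h6 : t * √((1 - Real.log t) / 2) = √(t ^ 2 * ((1 - Real.log t) / 2)) := by
      rw [Real.sqrt_mul (by positivity), Real.sqrt_sq ht]
    rw [h6]
    exact Real.sqrt_le_one.mpr h3

theorem fl_fl {n : ℕ} (x : Cube n) (i : Fin n) : fl (fl x i) i = x := by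
  unfold fl
  ext j
  by_cases h : j = i
  · subst h; simp
  · simp [Function.update_of_ne h]

/-- TARGET: the set where `F = 1` is small -/
theorem card_one_le {n : ℕ} (U : Finset (Cube n)) (K ε : ℝ) (hK : 0 ≤ K) (hε : 0 < ε) (hε1 : ε ≤ 1)
    (F : Cube n → ℝ) (hF : Adm U (ε * 2 ^ n) F) (hobj : obj U K F ≤ 1) :
    ((univ.filter fun x => F x = 1).card : ℝ) * √((1 - Real.log ε) / 2) ≤
      √n * ((univ \ U).card : ℝ) + (K * ((univ.filter fun x => F x = 1).card : ℝ) + 1) / 2 := by
  classical
  set R : ℝ := ((univ.filter fun x => F x = 1).card : ℝ) with hR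
  set ch : Cube n → Fin n → Prop := fun x i => x ∉ U ∨ (fl x i ∈ U ∧ F (fl x i) ≤ F x) with hch
  have key := FI.func_ineq n F hF.nonneg hF.le_one ch (by
    intro x i
    simp only [hch, fl_fl]
    by_cases h1 : x ∈ U
    · by_cases h2 : fl x i ∈ U
      · rcases le_total (F (fl x i)) (F x) with h | h
        · exact Or.inl (Or.inr ⟨h2, h⟩)
        · exact Or.inr (Or.inr ⟨h1, h⟩)
      · exact Or.inr (Or.inl h2)
    · exact Or.inl (Or.inl h1))
  -- left side
  have hsum1 : R ≤ ∑ x, F x := by
    have : R = ∑ x : Cube n, if F x = 1 then (1:ℝ) else 0 := by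
      rw [Finset.sum_boole]
    rw [this]
    refine Finset.sum_le_sum fun x _ => ?_
    split_ifs with h
    · rw [h]
    · exact hF.nonneg x
  have hsum2 : ∑ x, F x ≤ ε * 2 ^ n := by
    refine le_trans ?_ hF.card
    have : ((univ.filter fun x => F x ≠ 0).card : ℝ) = ∑ x : Cube n, if F x ≠ 0 then (1:ℝ) else 0 := by
      rw [Finset.sum_boole]
    rw [this]
    refine Finset.sum_le_sum fun x _ => ?_
    split_ifs with h
    · exact hF.le_one x
    · rw [not_not] at h; rw [h]
  have hR0 : 0 ≤ R := Nat.cast_nonneg _
  have h2n : (0:ℝ) < 2 ^ n := by positivity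
  set t := (∑ x, F x) / 2 ^ n with ht
  have hleft : R * √((1 - Real.log ε) / 2) ≤ 2 ^ n * J t := by
    have ht0 : 0 ≤ t := div_nonneg (hR0.trans hsum1) h2n.le
    have htε : t ≤ ε := by rw [ht, div_le_iff₀ h2n]; exact hsum2
    rcases ht0.eq_or_lt with h | h
    · have hs : ∑ x, F x = 0 := by
        have : (∑ x, F x) / 2 ^ n = 0 := by rw [← ht]; exact h.symm
        rcases div_eq_zero_iff.mp this with h' | h'
        · exact h'
        · exact absurd h' h2n.ne'
      have : R = 0 := le_antisymm (by linarith) hR0
      rw [this, zero_mul]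
      exact mul_nonneg h2n.le (J_nonneg ht0)
    · unfold J
      have h1 : √((1 - Real.log ε) / 2) ≤ √((1 - Real.log t) / 2) := by
        apply Real.sqrt_le_sqrt
        have := Real.log_le_log h htε
        linarith
      have h2 : (2:ℝ) ^ n * t = ∑ x, F x := by
        rw [ht]; field_simp
      calc R * √((1 - Real.log ε) / 2) ≤ (∑ x, F x) * √((1 - Real.log t) / 2) :=
            mul_le_mul hsum1 h1 (Real.sqrt_nonneg _) (hR0.trans hsum1)
        _ = 2 ^ n * (t * √((1 - Real.log t) / 2)) := by rw [← mul_assoc, h2]
  -- right side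
  have hright : ∀ x : Cube n, √(J (F x) ^ 2 + ∑ i, if ch x i then (F x - F (fl x i)) ^ 2 else 0) ≤
      (if x ∈ univ \ U then √(n:ℝ) else 0) + (3 / 2) * (if F x ≠ 0 then (1:ℝ) else 0) +
      (1 / 2) * (if x ∈ U then ∑ i : Fin n, (if fl x i ∈ U then (F x - F (fl x i)) ^ 2 else 0) else 0) := by
    intro x
    by_cases hx : x ∈ U
    · rw [if_neg (by simp [hx]), if_pos hx]
      have hg0 : 0 ≤ ∑ i : Fin n, (if fl x i ∈ U then (F x - F (fl x i)) ^ 2 else 0) := by
        refine Finset.sum_nonneg fun i _ => ?_
        split_ifs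
        · positivity
        · exact le_rfl
      by_cases hx0 : F x = 0
      · have : (∑ i, if ch x i then (F x - F (fl x i)) ^ 2 else 0) = 0 := by
          refine Finset.sum_eq_zero fun i _ => ?_
          split_ifs with h
          · rcases h with h | h
            · exact absurd hx h
            · have h1 := hF.nonneg (fl x i)
              have h2 := h.2
              have h3 : F (fl x i) = 0 := by linarith
              rw [hx0, h3]; ring
          · rfl
        rw [this, hx0]
        have : J 0 = 0 := by simp [J]
        rw [this]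
        simp only [ne_eq, not_true_eq_false, if_false]
        rw [hx0] at hg0
        norm_num
        simpa using hg0
      · rw [if_pos hx0]
        set g := ∑ i : Fin n, (if fl x i ∈ U then (F x - F (fl x i)) ^ 2 else 0) with hg
        have hle : (∑ i, if ch x i then (F x - F (fl x i)) ^ 2 else 0) ≤ g := by
          refine Finset.sum_le_sum fun i _ => ?_
          by_cases hc : ch x i
          · rw [if_pos hc]
            have : fl x i ∈ U := by
              rcases hc with h | h
              · exact absurd hx h
              · exact h.1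
            rw [if_pos this]
          · rw [if_neg hc]
            split_ifs
            · positivity
            · exact le_rfl
        have hJ := J_le_one (hF.nonneg x) (hF.le_one x)
        have hJ0 := J_nonneg (hF.nonneg x)
        have : √(J (F x) ^ 2 + ∑ i, if ch x i then (F x - F (fl x i)) ^ 2 else 0) ≤ 3 / 2 + g / 2 := by
          apply Real.sqrt_le_iff.mpr
          constructor
          · positivity
          · nlinarith
        linarith
    · rw [if_pos (by simp [hx]), if_neg hx]
      have hx0 : F x = 0 := hF.supp x hx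
      have hJx : J (F x) = 0 := by rw [hx0]; simp [J]
      rw [hJx, if_neg (by rw [hx0]; simp)]
      simp only [mul_zero, add_zero]
      apply Real.sqrt_le_sqrt
      have : (∑ i, if ch x i then (F x - F (fl x i)) ^ 2 else 0) ≤ ∑ i : Fin n, (1:ℝ) := by
        refine Finset.sum_le_sum fun i _ => ?_
        split_ifs
        · have h1 := hF.nonneg (fl x i)
          have h2 := hF.le_one (fl x i)
          rw [hx0]
          nlinarith
        · exact zero_le_one
      simp only [Finset.sum_const, Finset.card_univ, Fintype.card_fin, nsmul_eq_mul, mul_one] at this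
      linarith
  have hsumright := Finset.sum_le_sum (s := (univ : Finset (Cube n))) fun x _ => hright x
  rw [Finset.sum_add_distrib, Finset.sum_add_distrib, ← Finset.mul_sum, ← Finset.mul_sum,
    Finset.sum_boole, ← Finset.sum_filter, ← Finset.sum_filter, Finset.sum_const, nsmul_eq_mul] at hsumright
  have e1 : (univ.filter fun x => x ∈ univ \ U) = univ \ U := by ext; simp
  have e2 : (univ.filter fun x => x ∈ U) = U := by ext; simp
  rw [e1, e2] at hsumright
  have e3 : ∑ x ∈ U, ∑ i : Fin n, (if fl x i ∈ U then (F x - F (fl x i)) ^ 2 else 0) = energy U F := rfl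
  rw [e3] at hsumright
  unfold obj at hobj
  rw [← hR] at hobj
  linarith

end CB

end LazyCops
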