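import Pool.Agent.Helper848.Lazy.CoreDefs

namespace LazyCops

namespace CC

open Finset




/-- TARGET: level-set inequality in the core. Here `U.filter (F < 1)` is the core `W`. -/
theorem core_level {n : ℕ} (U : Finset (Cube n)) (K M : ℝ) (hK : 1 ≤ K)
    (F : Cube n → ℝ) (hF : Adm U M F)
    (hmin : ∀ F', Adm U M F' → obj U K F ≤ obj U K F' + 1)
    (h : Cube n → ℝ) (h0 : ∀ x, 0 ≤ h x) (h1 : ∀ x, h x ≤ 1)
    (hsupp : ∀ x, x ∉ U.filter (fun x => F x < 1) → h x = 0)
    (hM : ((univ.filter fun x => F x ≠ 0).card : ℝ) + ((univ.filter fun x => h x ≠ 0).card : ℝ) ≤ M) :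
    (K - 1) * ((univ.filter (fun x => h x = 1)).card : ℝ) ≤
      energy (U.filter (fun x => F x < 1)) h +
        3 * ((univ.filter (fun x => h x ≠ 0)).card : ℝ) := by
  classical
  set W := U.filter (fun x => F x < 1) with hW
  have hWmem : ∀ x, x ∈ W ↔ x ∈ U ∧ F x < 1 := fun x => by simp [hW]
  rcases Nat.eq_zero_or_pos ((univ.filter (fun x => h x = 1)).card) with hz | hpos
  · rw [hz]
    have he : 0 ≤ energy W h := by
      unfold energy
      refine Finset.sum_nonneg fun x _ => Finset.sum_nonneg fun i _ => ?_
      split_ifs
      · positivity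
      · exact le_rfl
    have : (0:ℝ) ≤ 3 * ((univ.filter (fun x => h x ≠ 0)).card : ℝ) := by positivity
    simpa using by linarith
  · set F' : Cube n → ℝ := fun x => max (F x) (h x) with hF'
    have hsuppsub : (univ.filter fun x => F' x ≠ 0) ⊆
        (univ.filter fun x => F x ≠ 0) ∪ (univ.filter fun x => h x ≠ 0) := by
      intro x hx
      simp only [mem_filter, mem_univ, true_and, mem_union] at hx ⊢
      by_contra hc
      push Not at hc
      apply hx
      simp [hF', hc.1, hc.2]
    have hcard : ((univ.filter fun x => F' x ≠ 0).card : ℝ) ≤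
        ((univ.filter fun x => F x ≠ 0).card : ℝ) + ((univ.filter fun x => h x ≠ 0).card : ℝ) := by
      exact_mod_cast (Finset.card_le_card hsuppsub).trans (Finset.card_union_le _ _)
    have hadm : Adm U M F' := by
      refine ⟨fun x => le_max_of_le_left (hF.nonneg x), fun x => max_le (hF.le_one x) (h1 x), ?_, ?_⟩
      · intro x hx
        have : x ∉ W := fun hh => hx ((hWmem x).1 hh).1
        simp [hF', hF.supp x hx, hsupp x this]
      · exact hcard.trans hM
    have hdisj : Disjoint (univ.filter fun x => F x = 1) (univ.filter fun x => h x = 1) := by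
      rw [Finset.disjoint_left]
      intro x hx hx'
      simp only [mem_filter, mem_univ, true_and] at hx hx'
      have : x ∉ W := fun hh => by
        have := ((hWmem x).1 hh).2
        linarith
      have := hsupp x this
      linarith
    have hones : ((univ.filter fun x => F x = 1).card : ℝ) + ((univ.filter fun x => h x = 1).card : ℝ)
        ≤ ((univ.filter fun x => F' x = 1).card : ℝ) := by
      have hsub : (univ.filter fun x => F x = 1) ∪ (univ.filter fun x => h x = 1) ⊆
          (univ.filter fun x => F' x = 1) := by
        intro x hx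
        simp only [mem_filter, mem_univ, true_and, mem_union] at hx ⊢
        rcases hx with hx | hx
        · simp only [hF', hx]
          exact max_eq_left (h1 x)
        · simp only [hF', hx]
          exact max_eq_right (hF.le_one x)
      have := Finset.card_le_card hsub
      rw [Finset.card_union_of_disjoint hdisj] at this
      exact_mod_cast this
    have hsq : ∀ a b c d : ℝ, (max a b - max c d) ^ 2 ≤ (a - c) ^ 2 + (b - d) ^ 2 := by
      intro a b c d
      rcases le_total a b with h1 | h1 <;> rcases le_total c d with h2 | h2
      · rw [max_eq_right h1, max_eq_right h2]; nlinarith [sq_nonneg (a - c)]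
      · rw [max_eq_right h1, max_eq_left h2]
        rcases le_total b c with h3 | h3
        · have : (b - c) ^ 2 ≤ (a - c) ^ 2 := by nlinarith
          nlinarith [sq_nonneg (b - d)]
        · have : (b - c) ^ 2 ≤ (b - d) ^ 2 := by nlinarith
          nlinarith [sq_nonneg (a - c)]
      · rw [max_eq_left h1, max_eq_right h2]
        rcases le_total a d with h3 | h3
        · have : (a - d) ^ 2 ≤ (b - d) ^ 2 := by nlinarith
          nlinarith [sq_nonneg (a - c)]
        · have : (a - d) ^ 2 ≤ (a - c) ^ 2 := by nlinarith
          nlinarith [sq_nonneg (b - d)]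
      · rw [max_eq_left h1, max_eq_left h2]; nlinarith [sq_nonneg (b - d)]
    have hnotW : ∀ x ∈ U, x ∉ W → F x = 1 ∧ h x = 0 := by
      intro x hxU hxW
      refine ⟨?_, hsupp x hxW⟩
      by_contra hne
      exact hxW ((hWmem x).2 ⟨hxU, lt_of_le_of_ne (hF.le_one x) hne⟩)
    have henergy : energy U F' ≤ energy U F + energy W h := by
      have e2 : energy W h = ∑ x ∈ U, ∑ i : Fin n,
          if x ∈ W ∧ fl x i ∈ W then (h x - h (fl x i)) ^ 2 else 0 := by
        unfold energy
        have hWU : W ⊆ U := Finset.filter_subset _ _
        rw [← Finset.sum_subset (s₁ := W) (s₂ := U) hWU]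
        · refine Finset.sum_congr rfl fun x hx => Finset.sum_congr rfl fun i _ => ?_
          simp [hx]
        · intro x _ hx
          refine Finset.sum_eq_zero fun i _ => ?_
          simp [hx]
      rw [e2]
      unfold energy
      rw [← Finset.sum_add_distrib]
      refine Finset.sum_le_sum fun x hxU => ?_
      rw [← Finset.sum_add_distrib]
      refine Finset.sum_le_sum fun i _ => ?_
      by_cases hu : fl x i ∈ U
      · rw [if_pos hu, if_pos hu]
        by_cases hxW : x ∈ W
        · by_cases huW : fl x i ∈ W
          · rw [if_pos ⟨hxW, huW⟩]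
            exact hsq _ _ _ _
          · rw [if_neg (fun hh => huW hh.2)]
            obtain ⟨ha, hb⟩ := hnotW _ hu huW
            have h3 : F' (fl x i) = 1 := by
              simp only [hF', ha, hb]; norm_num
            rw [h3, ha, add_zero]
            have h4 : F x ≤ F' x := le_max_left _ _
            have h5 : F' x ≤ 1 := hadm.le_one x
            nlinarith
        · rw [if_neg (fun hh => hxW hh.1)]
          obtain ⟨ha, hb⟩ := hnotW _ hxU hxW
          have h3 : F' x = 1 := by
            simp only [hF', ha, hb]; norm_num
          rw [h3, ha, add_zero]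
          have h4 : F (fl x i) ≤ F' (fl x i) := le_max_left _ _
          have h5 : F' (fl x i) ≤ 1 := hadm.le_one _
          nlinarith
      · rw [if_neg hu, if_neg hu]
        split_ifs
        · positivity
        · simp
    have hobj := hmin F' hadm
    unfold obj at hobj
    have hp : (1:ℝ) ≤ ((univ.filter (fun x => h x = 1)).card : ℝ) := by exact_mod_cast hpos
    have hK0 : 0 ≤ K := by linarith
    have hmul := mul_le_mul_of_nonneg_left hones hK0
    nlinarith


end CC

end LazyCops
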