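import Pool.Agent.Helper848.Lazy.Trap

namespace LazyCops

open Finset


/-- truncated linear profile -/
noncomputable def prof (s t : ℝ) : ℝ := min 1 (max 0 (2 * t / s - 1))

lemma prof_nonneg (s t : ℝ) : 0 ≤ prof s t := le_min zero_le_one (le_max_left _ _)
lemma prof_le_one (s t : ℝ) : prof s t ≤ 1 := min_le_left _ _
lemma prof_zero {s t : ℝ} (hs : 0 < s) (h : t ≤ s / 2) : prof s t = 0 := by
  have : 2 * t / s - 1 ≤ 0 := by
    rw [sub_nonpos, div_le_one hs]; linarith
  rw [prof, max_eq_left this]; simp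
lemma prof_one {s t : ℝ} (hs : 0 < s) (h : s ≤ t) : prof s t = 1 := by
  have : 1 ≤ 2 * t / s - 1 := by
    rw [le_sub_iff_add_le, le_div_iff₀ hs]; linarith
  rw [prof]
  exact min_eq_left (this.trans (le_max_right _ _))

lemma prof_eq {s : ℝ} (hs : 0 < s) (t : ℝ) : s * prof s t = 2 * max (s / 2) (min s t) - s := by
  have hs' : s ≠ 0 := hs.ne'
  rcases le_total t (s / 2) with h | h
  · rw [prof_zero hs h, min_eq_right (by linarith), max_eq_left h]; ring
  · rcases le_total s t with h' | h'
    · rw [prof_one hs h', min_eq_left h', max_eq_right (by linarith)]; ring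
    · have h1 : 0 ≤ 2 * t / s - 1 := by
        rw [le_sub_iff_add_le, le_div_iff₀ hs]; linarith
      have h2 : 2 * t / s - 1 ≤ 1 := by
        rw [sub_le_iff_le_add, div_le_iff₀ hs]; linarith
      rw [prof, max_eq_right h1, min_eq_right h2, min_eq_right h', max_eq_right h]
      field_simp

lemma lower_aux (N : ℕ) : ∀ (M t : ℝ), 0 < M → 0 ≤ t →
    (min t (2 * M)) ^ 2 / 4 - M ^ 2 * (1 / 4) ^ N ≤
      ∑ j ∈ Finset.range N, (M / 2 ^ j) ^ 2 * (if M / 2 ^ j ≤ t then 1 else 0) := by
  induction N with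
  | zero =>
    intro M t hM ht
    have h1 : min t (2 * M) ≤ 2 * M := min_le_right _ _
    have h2 : 0 ≤ min t (2 * M) := le_min ht (by linarith)
    simp only [Finset.range_zero, Finset.sum_empty, pow_zero, mul_one]
    nlinarith
  | succ N ih =>
    intro M t hM ht
    rw [Finset.sum_range_succ']
    simp only [pow_zero, div_one]
    have hsum : ∀ j, M / 2 ^ (j + 1) = (M / 2) / 2 ^ j := by
      intro j; rw [pow_succ]; field_simp
    simp only [hsum]
    by_cases h : M ≤ t
    · rw [if_pos h]
      have h1 : min t (2 * M) ≤ 2 * M := min_le_right _ _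
      have h2 : 0 ≤ min t (2 * M) := le_min ht (by linarith)
      have h3 : 0 ≤ ∑ j ∈ Finset.range N, (M / 2 / 2 ^ j) ^ 2 *
          (if M / 2 / 2 ^ j ≤ t then (1 : ℝ) else 0) :=
        Finset.sum_nonneg fun j _ => by split_ifs <;> positivity
      have h4 : 0 ≤ M ^ 2 * (1 / 4) ^ (N + 1) := by positivity
      nlinarith
    · rw [if_neg h]
      push Not at h
      have h1 := ih (M / 2) t (by linarith) ht
      rw [min_eq_left (by linarith)] at h1
      rw [min_eq_left (by linarith)]
      have h2 : (M / 2) ^ 2 * (1 / 4 : ℝ) ^ N = M ^ 2 * (1 / 4) ^ (N + 1) := by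
        rw [pow_succ]; ring
      rw [h2] at h1
      linarith

lemma upper_aux (N : ℕ) : ∀ (M t : ℝ), 0 < M → 0 ≤ t →
    ∑ j ∈ Finset.range N, (M / 2 ^ j) ^ 2 * (if M / 2 ^ j / 2 < t then 1 else 0) ≤
      4 / 3 * (min M (2 * t)) ^ 2 := by
  induction N with
  | zero =>
    intro M t hM ht
    simp only [Finset.range_zero, Finset.sum_empty]
    positivity
  | succ N ih =>
    intro M t hM ht
    rw [Finset.sum_range_succ']
    simp only [pow_zero, div_one]
    have hsum : ∀ j, M / 2 ^ (j + 1) = (M / 2) / 2 ^ j := by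
      intro j; rw [pow_succ]; field_simp
    simp only [hsum]
    have h1 := ih (M / 2) t (by linarith) ht
    have h0 : 0 ≤ min (M / 2) (2 * t) := le_min (by linarith) (by linarith)
    by_cases h : M / 2 < t
    · rw [if_pos h]
      have h2 : min (M / 2) (2 * t) ≤ M / 2 := min_le_left _ _
      rw [min_eq_left (show M ≤ 2 * t by linarith)]
      nlinarith
    · rw [if_neg h]
      have h2 : min (M / 2) (2 * t) ≤ min M (2 * t) :=
        min_le_min (by linarith) le_rfl
      nlinarith

lemma edge_aux (N : ℕ) : ∀ (M a b : ℝ), 0 < M → 0 ≤ a → a ≤ b →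
    ∑ j ∈ Finset.range N, (M / 2 ^ j) ^ 2 * (prof (M / 2 ^ j) b - prof (M / 2 ^ j) a) ^ 2 ≤
      4 * (min b M - min a M) ^ 2 := by
  induction N with
  | zero =>
    intro M a b hM ha hb
    simp only [Finset.range_zero, Finset.sum_empty]
    positivity
  | succ N ih =>
    intro M a b hM ha hab
    rw [Finset.sum_range_succ']
    simp only [pow_zero, div_one]
    have hsum : ∀ j, M / 2 ^ (j + 1) = (M / 2) / 2 ^ j := by
      intro j; rw [pow_succ]; field_simp
    simp only [hsum]
    have h1 := ih (M / 2) a b (by linarith) ha hab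
    have h2 : M ^ 2 * (prof M b - prof M a) ^ 2 =
        4 * (max (M / 2) (min M b) - max (M / 2) (min M a)) ^ 2 := by
      have e1 := prof_eq hM b
      have e2 := prof_eq hM a
      have : M ^ 2 * (prof M b - prof M a) ^ 2 = (M * prof M b - M * prof M a) ^ 2 := by ring
      rw [this, e1, e2]; ring
    have key : ∀ t : ℝ, min t M = max (M / 2) (min M t) + min t (M / 2) - M / 2 := by
      intro t
      rcases le_total t (M / 2) with h | h
      · rw [min_eq_left (show t ≤ M by linarith), min_eq_right (show t ≤ M by linarith),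
          max_eq_left h, min_eq_left h]; ring
      · rcases le_total M t with h' | h'
        · rw [min_eq_right h', min_eq_left h', max_eq_right (by linarith), min_eq_right h]; ring
        · rw [min_eq_left h', min_eq_right h', max_eq_right h, min_eq_right h]; ring
    have p0 : 0 ≤ max (M / 2) (min M b) - max (M / 2) (min M a) :=
      sub_nonneg.2 (max_le_max le_rfl (min_le_min le_rfl hab))
    have q0 : 0 ≤ min b (M / 2) - min a (M / 2) := sub_nonneg.2 (min_le_min hab le_rfl)
    rw [h2, key a, key b]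
    nlinarith [mul_nonneg p0 q0]

lemma edge_aux' (N : ℕ) (M a b : ℝ) (hM : 0 < M) (ha : 0 ≤ a) (hb : 0 ≤ b) (haM : a ≤ M)
    (hbM : b ≤ M) :
    ∑ j ∈ Finset.range N, (M / 2 ^ j) ^ 2 * (prof (M / 2 ^ j) a - prof (M / 2 ^ j) b) ^ 2 ≤
      4 * (a - b) ^ 2 := by
  rcases le_total a b with h | h
  · have := edge_aux N M a b hM ha h
    rw [min_eq_left haM, min_eq_left hbM] at this
    calc _ = ∑ j ∈ Finset.range N, (M / 2 ^ j) ^ 2 *
          (prof (M / 2 ^ j) b - prof (M / 2 ^ j) a) ^ 2 :=
          Finset.sum_congr rfl fun j _ => by ring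
      _ ≤ 4 * (b - a) ^ 2 := this
      _ = 4 * (a - b) ^ 2 := by ring
  · have := edge_aux N M b a hM hb h
    rwa [min_eq_left haM, min_eq_left hbM] at this

/-- TARGET: from level sets to L2 -/
theorem fk_of_level {n : ℕ} (W : Finset (Cube n)) (M0 K5 : ℝ)
    (hlev : ∀ h : Cube n → ℝ, (∀ x, 0 ≤ h x) → (∀ x, h x ≤ 1) → (∀ x, x ∉ W → h x = 0) →
      ((univ.filter (fun x => h x ≠ 0)).card : ℝ) ≤ M0 →
      K5 * ((univ.filter (fun x => h x = 1)).card : ℝ) ≤
        energy W h + 3 * ((univ.filter (fun x => h x ≠ 0)).card : ℝ))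
    (hK5 : 0 ≤ K5)
    (f : Cube n → ℝ) (hf0 : ∀ x, 0 ≤ f x) (hfW : ∀ x, x ∉ W → f x = 0)
    (hsupp : ((univ.filter (fun x => f x ≠ 0)).card : ℝ) ≤ M0) :
    (K5 / 16 - 4) * ∑ x, f x ^ 2 ≤ energy W f := by
  classical
  set M : ℝ := 1 + ∑ x, f x with hMdef
  have hM : 0 < M := by
    have : 0 ≤ ∑ x, f x := Finset.sum_nonneg fun x _ => hf0 x
    linarith
  have hfM : ∀ x, f x ≤ M := by
    intro x
    have := Finset.single_le_sum (f := f) (fun y _ => hf0 y) (Finset.mem_univ x)
    linarith
  -- one level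
  have hone : ∀ s : ℝ, 0 < s → K5 * ∑ x, (if s ≤ f x then (1 : ℝ) else 0) ≤
      energy W (fun x => prof s (f x)) + 3 * ∑ x, (if s / 2 < f x then (1 : ℝ) else 0) := by
    intro s hs
    have h1 := hlev (fun x => prof s (f x)) (fun x => prof_nonneg _ _) (fun x => prof_le_one _ _)
      (fun x hx => by
        show prof s (f x) = 0
        rw [hfW x hx]; exact prof_zero hs (by linarith)) (by
        refine le_trans ?_ hsupp
        have : (univ.filter (fun x => prof s (f x) ≠ 0)) ⊆ univ.filter (fun x => f x ≠ 0) := by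
          intro x hx
          simp only [Finset.mem_filter, Finset.mem_univ, true_and] at hx ⊢
          intro h0
          exact hx (by rw [h0]; exact prof_zero hs (by linarith))
        exact_mod_cast Finset.card_le_card this)
    have h2 : ∑ x, (if s ≤ f x then (1 : ℝ) else 0) ≤
        ((univ.filter (fun x => prof s (f x) = 1)).card : ℝ) := by
      rw [← Finset.natCast_card_filter]
      have : (univ.filter (fun x => s ≤ f x)) ⊆ univ.filter (fun x => prof s (f x) = 1) := by
        intro x hx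
        simp only [Finset.mem_filter, Finset.mem_univ, true_and] at hx ⊢
        exact prof_one hs hx
      exact_mod_cast Finset.card_le_card this
    have h3 : ((univ.filter (fun x => prof s (f x) ≠ 0)).card : ℝ) ≤
        ∑ x, (if s / 2 < f x then (1 : ℝ) else 0) := by
      rw [← Finset.natCast_card_filter]
      have : (univ.filter (fun x => prof s (f x) ≠ 0)) ⊆ univ.filter (fun x => s / 2 < f x) := by
        intro x hx
        simp only [Finset.mem_filter, Finset.mem_univ, true_and] at hx ⊢
        by_contra h0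
        exact hx (prof_zero hs (not_lt.1 h0))
      exact_mod_cast Finset.card_le_card this
    have h4 := mul_le_mul_of_nonneg_left h2 hK5
    linarith
  -- the sum over the levels
  have hN : ∀ N : ℕ, (K5 / 16 - 4) * ∑ x, f x ^ 2 ≤
      energy W f + K5 * 2 ^ n * M ^ 2 * (1 / 4) ^ N / 4 := by
    intro N
    have hs : ∀ j : ℕ, 0 < M / 2 ^ j := fun j => by positivity
    have h1 : K5 * ∑ x, ∑ j ∈ Finset.range N,
          (M / 2 ^ j) ^ 2 * (if M / 2 ^ j ≤ f x then (1 : ℝ) else 0) ≤
        ∑ j ∈ Finset.range N, (M / 2 ^ j) ^ 2 * energy W (fun x => prof (M / 2 ^ j) (f x)) +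
        3 * ∑ x, ∑ j ∈ Finset.range N,
          (M / 2 ^ j) ^ 2 * (if M / 2 ^ j / 2 < f x then (1 : ℝ) else 0) := by
      rw [Finset.sum_comm, Finset.sum_comm (s := univ) (t := Finset.range N), Finset.mul_sum,
        Finset.mul_sum, ← Finset.sum_add_distrib]
      refine Finset.sum_le_sum fun j _ => ?_
      have h := mul_le_mul_of_nonneg_left (hone _ (hs j)) (sq_nonneg (M / 2 ^ j))
      simp only [← Finset.mul_sum]
      calc _ = (M / 2 ^ j) ^ 2 * (K5 * ∑ x, (if M / 2 ^ j ≤ f x then (1 : ℝ) else 0)) := by ring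
        _ ≤ _ := h
        _ = _ := by ring
    have h2 : ∑ j ∈ Finset.range N, (M / 2 ^ j) ^ 2 * energy W (fun x => prof (M / 2 ^ j) (f x)) ≤
        4 * energy W f := by
      simp only [energy, Finset.mul_sum]
      rw [Finset.sum_comm]
      refine Finset.sum_le_sum fun x _ => ?_
      rw [Finset.sum_comm]
      refine Finset.sum_le_sum fun i _ => ?_
      by_cases hi : fl x i ∈ W
      · simp only [if_pos hi]
        exact edge_aux' N M _ _ hM (hf0 _) (hf0 _) (hfM _) (hfM _)
      · simp [if_neg hi]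
    have h3 : ∑ x, ∑ j ∈ Finset.range N,
          (M / 2 ^ j) ^ 2 * (if M / 2 ^ j / 2 < f x then (1 : ℝ) else 0) ≤
        16 / 3 * ∑ x, f x ^ 2 := by
      rw [Finset.mul_sum]
      refine Finset.sum_le_sum fun x _ => ?_
      refine (upper_aux N M (f x) hM (hf0 x)).trans ?_
      have e1 : min M (2 * f x) ≤ 2 * f x := min_le_right _ _
      have e2 : 0 ≤ min M (2 * f x) := le_min hM.le (by have := hf0 x; linarith)
      nlinarith
    have h4 : (∑ x, f x ^ 2) / 4 - 2 ^ n * (M ^ 2 * (1 / 4) ^ N) ≤ ∑ x, ∑ j ∈ Finset.range N,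
          (M / 2 ^ j) ^ 2 * (if M / 2 ^ j ≤ f x then (1 : ℝ) else 0) := by
      have e1 : (2 : ℝ) ^ n * (M ^ 2 * (1 / 4) ^ N) = ∑ x : Cube n, M ^ 2 * (1 / 4) ^ N := by
        rw [Finset.sum_const, Finset.card_univ, Fintype.card_fun, Fintype.card_bool,
          Fintype.card_fin, nsmul_eq_mul]
        push_cast; ring
      rw [e1, Finset.sum_div, ← Finset.sum_sub_distrib]
      refine Finset.sum_le_sum fun x _ => ?_
      have := lower_aux N M (f x) hM (hf0 x)
      rw [min_eq_left (by have := hfM x; linarith)] at this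
      exact this
    have h5 := mul_le_mul_of_nonneg_left h4 hK5
    nlinarith
  have hlim : Filter.Tendsto (fun N : ℕ => energy W f + K5 * 2 ^ n * M ^ 2 * (1 / 4 : ℝ) ^ N / 4)
      Filter.atTop (nhds (energy W f + K5 * 2 ^ n * M ^ 2 * 0 / 4)) := by
    refine Filter.Tendsto.add tendsto_const_nhds ?_
    refine Filter.Tendsto.div_const ?_ 4
    refine Filter.Tendsto.const_mul _ ?_
    exact tendsto_pow_atTop_nhds_zero_of_lt_one (by norm_num) (by norm_num)
  have := ge_of_tendsto' hlim hN
  simpa using this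

end LazyCops
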