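import Pool.Agent.Helper848.Lazy.CoreA
import Pool.Agent.Helper848.Lazy.CoreB
import Pool.Agent.Helper848.Lazy.CoreC
import Pool.Agent.Helper848.Lazy.FK

open Finset Filter

namespace LazyCops

/-- good sets of vertices for the robber -/
structure Good {n : ℕ} (m0 δ0 K : ℝ) (W : Finset (Cube n)) : Prop where
  compl : ((univ \ W).card : ℝ) ≤ m0
  deg : ∀ v ∈ W, δ0 ≤ ((nb W v).card : ℝ)
  fk : ∀ f : Cube n → ℝ, (∀ x, 0 ≤ f x) → (∀ x, x ∉ W → f x = 0) →
    ((univ.filter (fun x => f x ≠ 0)).card : ℝ) ≤ m0 → K * ∑ x, f x ^ 2 ≤ energy W f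

theorem nb_add_nb {n : ℕ} (U : Finset (Cube n)) (v : Cube n) :
    (nb U v).card + (nb (univ \ U) v).card = n := by
  have h : nb (univ \ U) v = univ.filter (fun i => ¬ fl v i ∈ U) := by
    unfold nb
    ext i
    simp
  rw [h]
  unfold nb
  rw [Finset.card_filter_add_card_filter_not]
  simp

theorem exists_core (K : ℝ) (hK : 1 ≤ K) : ∃ ε c0 : ℝ, 0 < ε ∧ ε ≤ 1 ∧ 0 < c0 ∧
    ∀ᶠ n : ℕ in atTop, ∀ X : Finset (Cube n), (X.card : ℝ) * √n ≤ c0 * 2 ^ n →
      ∃ W : Finset (Cube n), Good (ε * 2 ^ n / 2) (√n / 4) K W ∧ Disjoint W X := by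
  classical
  set K4 : ℝ := 16 * (K + 4) + 1 with hK4
  set ε : ℝ := Real.exp (1 - 2 * (K4 / 2 + 1) ^ 2) with hε
  have hε0 : 0 < ε := Real.exp_pos _
  have hK4' : 5 ≤ K4 := by rw [hK4]; linarith
  have hε1 : ε ≤ 1 := by
    rw [hε, Real.exp_le_one_iff]
    nlinarith
  have hsq : √((1 - Real.log ε) / 2) = K4 / 2 + 1 := by
    rw [hε, Real.log_exp]
    have : (1 - (1 - 2 * (K4 / 2 + 1) ^ 2)) / 2 = (K4 / 2 + 1) ^ 2 := by ring
    rw [this, Real.sqrt_sq (by linarith)]
  refine ⟨ε, ε / (40 * K4), hε0, hε1, by positivity, ?_⟩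
  have hlarge : ∀ᶠ n : ℕ in atTop, 4 * (K4 + 2) / ε ≤ 2 ^ n :=
    (tendsto_pow_atTop_atTop_of_one_lt (by norm_num : (1 : ℝ) < 2)).eventually_ge_atTop _
  filter_upwards [hlarge, eventually_ge_atTop 2] with n hn hn2 X hX
  have hn' : 4 * (K4 + 2) ≤ ε * 2 ^ n := by
    rw [div_le_iff₀ hε0] at hn
    linarith
  obtain ⟨X', hXX', hX'card, hX'deg⟩ := exists_closure n X
  set U : Finset (Cube n) := univ \ X' with hU
  have hUc : univ \ U = X' := by
    rw [hU]; ext x; simp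
  have hM0 : (0 : ℝ) ≤ ε * 2 ^ n := by positivity
  obtain ⟨F, hF, hmin⟩ := CA.exists_near_min U K4 (ε * 2 ^ n) hM0 (by linarith)
  have hobj : obj U K4 F ≤ 1 := by
    have h0 : Adm U (ε * 2 ^ n) (fun _ => (0 : ℝ)) :=
      ⟨fun _ => le_rfl, fun _ => zero_le_one, fun _ _ => rfl, by simpa using hM0⟩
    have := hmin _ h0
    have h1 : obj U K4 (fun _ => (0 : ℝ)) = 0 := by
      unfold obj energy
      simp
    rw [h1] at this
    linarith
  set R : ℝ := ((univ.filter fun x => F x = 1).card : ℝ) with hR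
  have hR0 : 0 ≤ R := by positivity
  have hone := CB.card_one_le U K4 ε (by linarith) hε0 hε1 F hF hobj
  rw [hsq, ← hR, hUc] at hone
  have hX'r : (X'.card : ℝ) ≤ 5 * X.card := by exact_mod_cast hX'card
  have hsn1 : 1 ≤ √(n : ℝ) := by
    rw [Real.one_le_sqrt]
    exact_mod_cast (by omega : 1 ≤ n)
  have hN : (0 : ℝ) < 2 ^ n := by positivity
  have hA : (X'.card : ℝ) * √n ≤ ε * 2 ^ n / (8 * K4) := by
    calc (X'.card : ℝ) * √n ≤ 5 * X.card * √n := by gcongr
      _ = 5 * (X.card * √n) := by ring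
      _ ≤ 5 * (ε / (40 * K4) * 2 ^ n) := by gcongr
      _ = ε * 2 ^ n / (8 * K4) := by field_simp; ring
  have hA' : K4 * ((X'.card : ℝ) * √n) ≤ ε * 2 ^ n / 8 := by
    calc K4 * ((X'.card : ℝ) * √n) ≤ K4 * (ε * 2 ^ n / (8 * K4)) := by gcongr
      _ = _ := by field_simp
  have hB : (X'.card : ℝ) ≤ (X'.card : ℝ) * √n := by
    have : (0 : ℝ) ≤ X'.card := by positivity
    nlinarith
  have hRle : R ≤ √n * (X'.card : ℝ) + 1 / 2 := by nlinarith
  have hKR : K4 * R ≤ ε * 2 ^ n / 8 + K4 / 2 := by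
    have : K4 * R ≤ K4 * (√n * (X'.card : ℝ) + 1 / 2) := by gcongr
    nlinarith
  have hXε : (X'.card : ℝ) * √n ≤ ε * 2 ^ n / 8 := by
    have h0 : (0 : ℝ) ≤ (X'.card : ℝ) * √n := by positivity
    nlinarith
  have henergy : 0 ≤ energy U F := CA.energy_nonneg' U F
  set s : ℝ := ((univ.filter fun x => F x ≠ 0).card : ℝ) with hs
  have hsle : 3 * s ≤ K4 * R + 1 := by
    have : energy U F + 3 * s - K4 * R ≤ 1 := hobj
    linarith
  have hs1 : s + 1 ≤ ε * 2 ^ n / 2 := by nlinarith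
  set W : Finset (Cube n) := U.filter (fun x => F x < 1) with hW
  refine ⟨W, ⟨?_, ?_, ?_⟩, ?_⟩
  · -- complement
    have hsub : univ \ W ⊆ X' ∪ univ.filter (fun x => F x = 1) := by
      intro x hx
      simp only [Finset.mem_sdiff, mem_univ, true_and, hW, mem_filter, not_and, hU] at hx
      rw [mem_union, mem_filter]
      by_cases hxX : x ∈ X'
      · exact Or.inl hxX
      · right
        exact ⟨mem_univ _, le_antisymm (hF.le_one x) (not_lt.1 (hx hxX))⟩
    have h1 : ((univ \ W).card : ℝ) ≤ X'.card + R := by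
      rw [hR]
      exact_mod_cast (card_le_card hsub).trans (card_union_le _ _)
    nlinarith
  · -- degrees
    intro v hv
    apply CA.core_degree hn2 U K4 (ε * 2 ^ n) hK4' F hF hmin _ v hv
    · have hvU : v ∉ X' := by
        rw [hW, mem_filter, hU, Finset.mem_sdiff] at hv
        exact hv.1.2
      have h1 := hX'deg v hvU
      have h2 := nb_add_nb U v
      rw [hUc] at h2
      omega
    · rw [← hs]
      linarith [hM0]
  · -- Faber-Krahn
    intro f hf0 hfW hsupp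
    have := fk_of_level W (ε * 2 ^ n / 2) (K4 - 1) (fun h h0 h1 h2 h3 => by
      apply CC.core_level U K4 (ε * 2 ^ n) (by linarith) F hF hmin h h0 h1 h2
      rw [← hs]
      linarith) (by linarith) f hf0 hfW hsupp
    have h4 : (K4 - 1) / 16 - 4 = K := by rw [hK4]; ring
    rw [h4] at this
    exact this
  · rw [Finset.disjoint_left]
    intro x hx hxX
    rw [hW, mem_filter, hU, Finset.mem_sdiff] at hx
    exact hx.1.2 (hXX' hxX)

end LazyCops
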