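import Pool.Agent.Helper848.Lazy.CoreDefs

namespace LazyCops

namespace CA

open Finset




theorem energy_nonneg' {n : ℕ} (U : Finset (Cube n)) (F : Cube n → ℝ) : 0 ≤ energy U F := by
  unfold energy
  refine Finset.sum_nonneg fun x _ => Finset.sum_nonneg fun i _ => ?_
  split_ifs
  · positivity
  · exact le_rfl

/-- TARGET 1: near-minimiser exists -/
theorem exists_near_min {n : ℕ} (U : Finset (Cube n)) (K M : ℝ) (hM : 0 ≤ M) (hK : 0 ≤ K) :
    ∃ F, Adm U M F ∧ ∀ F', Adm U M F' → obj U K F ≤ obj U K F' + 1 := by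
  set S : Set ℝ := {a | ∃ F, Adm U M F ∧ obj U K F = a} with hS
  have hne : S.Nonempty := by
    refine ⟨obj U K (fun _ => 0), fun _ => 0, ⟨fun x => le_rfl, fun x => zero_le_one,
      fun x _ => rfl, ?_⟩, rfl⟩
    simpa using hM
  have hbdd : BddBelow S := by
    refine ⟨-K * (Fintype.card (Cube n) : ℝ), ?_⟩
    rintro a ⟨F, hF, rfl⟩
    unfold obj
    have h1 := energy_nonneg' U F
    have h2 : ((univ.filter fun x => F x = 1).card : ℝ) ≤ (Fintype.card (Cube n) : ℝ) := by
      exact_mod_cast Finset.card_le_univ _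
    have h3 : K * ((univ.filter fun x => F x = 1).card : ℝ) ≤ K * (Fintype.card (Cube n) : ℝ) :=
      mul_le_mul_of_nonneg_left h2 hK
    have h4 : (0:ℝ) ≤ ((univ.filter fun x => F x ≠ 0).card : ℝ) := Nat.cast_nonneg _
    linarith
  obtain ⟨a, ⟨F, hF, rfl⟩, ha⟩ := exists_lt_of_csInf_lt hne (show sInf S < sInf S + 1 by linarith)
  refine ⟨F, hF, fun F' hF' => ?_⟩
  have := csInf_le hbdd ⟨F', hF', rfl⟩
  linarith



/-- TARGET 2: degrees in the core. Here `U.filter (F < 1)` is the core `W`. -/
theorem core_degree {n : ℕ} (hn : 2 ≤ n) (U : Finset (Cube n)) (K M : ℝ) (hK : 5 ≤ K)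
    (F : Cube n → ℝ) (hF : Adm U M F)
    (hmin : ∀ F', Adm U M F' → obj U K F ≤ obj U K F' + 1)
    (hM : ((univ.filter fun x => F x ≠ 0).card : ℝ) + 1 ≤ M)
    (v : Cube n) (hv : v ∈ U.filter (fun x => F x < 1))
    (hdeg : 3 * n ≤ 8 * (nb U v).card) :
    √n / 4 ≤ ((nb (U.filter (fun x => F x < 1)) v).card : ℝ) := by
  classical
  rw [Finset.mem_filter] at hv
  obtain ⟨hvU, hv1⟩ := hv
  set W := U.filter (fun x => F x < 1) with hW
  set F' := Function.update F v 1 with hF'
  have hcard1 : (univ.filter fun x => F' x ≠ 0).card ≤ (univ.filter fun x => F x ≠ 0).card + 1 := by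
    have : (univ.filter fun x => F' x ≠ 0) ⊆ insert v (univ.filter fun x => F x ≠ 0) := by
      intro x hx
      rw [Finset.mem_insert, Finset.mem_filter]
      rw [Finset.mem_filter] at hx
      by_cases h : x = v
      · exact Or.inl h
      · right
        refine ⟨Finset.mem_univ _, ?_⟩
        have := hx.2
        rwa [hF', Function.update_of_ne h] at this
    exact (Finset.card_le_card this).trans (Finset.card_insert_le _ _)
  have hcard2 : (univ.filter fun x => F' x = 1).card = (univ.filter fun x => F x = 1).card + 1 := by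
    have : (univ.filter fun x => F' x = 1) = insert v (univ.filter fun x => F x = 1) := by
      ext x
      rw [Finset.mem_insert, Finset.mem_filter, Finset.mem_filter]
      by_cases h : x = v
      · subst h; simp [hF']
      · simp [hF', Function.update_of_ne h, h]
    rw [this, Finset.card_insert_of_notMem]
    simp [hv1.ne]
  have hcard1' : ((univ.filter fun x => F' x ≠ 0).card : ℝ) ≤
      ((univ.filter fun x => F x ≠ 0).card : ℝ) + 1 := by exact_mod_cast hcard1
  have hcard2' : ((univ.filter fun x => F' x = 1).card : ℝ) =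
      ((univ.filter fun x => F x = 1).card : ℝ) + 1 := by exact_mod_cast hcard2
  have hadm : Adm U M F' := by
    refine ⟨fun x => ?_, fun x => ?_, fun x hx => ?_, ?_⟩
    · by_cases h : x = v
      · subst h; simp [hF']
      · rw [hF', Function.update_of_ne h]; exact hF.nonneg x
    · by_cases h : x = v
      · subst h; simp [hF']
      · rw [hF', Function.update_of_ne h]; exact hF.le_one x
    · have h : x ≠ v := fun h => hx (h ▸ hvU)
      rw [hF', Function.update_of_ne h]; exact hF.supp x hx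
    · linarith
  have h1 := hmin F' hadm
  unfold obj at h1
  rw [hcard2'] at h1
  have h2 := energy_update U F v hvU 1
  rw [← hF'] at h2
  have h3 : 1 ≤ 2 * ∑ i ∈ nb U v, ((1 - F (fl v i)) ^ 2 - (F v - F (fl v i)) ^ 2) := by
    linarith
  set y := 1 - F v with hy
  have hy0 : 0 < y := by linarith
  have hy1 : y ≤ 1 := by have := hF.nonneg v; linarith
  have h4 : ∑ i ∈ nb U v, ((1 - F (fl v i)) ^ 2 - (F v - F (fl v i)) ^ 2) ≤
      ∑ i ∈ nb U v, (if fl v i ∈ W then 2 * y else - y ^ 2) := by
    refine Finset.sum_le_sum fun i hi => ?_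
    have hiU : fl v i ∈ U := by simpa [nb] using hi
    by_cases h : fl v i ∈ W
    · rw [if_pos h]
      have h0 := hF.nonneg (fl v i)
      have : (1 - F (fl v i)) ^ 2 - (F v - F (fl v i)) ^ 2 = y * (2 * (1 - F (fl v i)) - y) := by
        rw [hy]; ring
      rw [this]
      nlinarith
    · rw [if_neg h]
      have h0 : F (fl v i) = 1 := by
        rw [hW, Finset.mem_filter, not_and, not_lt] at h
        exact le_antisymm (hF.le_one _) (h hiU)
      rw [h0, hy]
      have : (1 - 1 : ℝ) ^ 2 - (F v - 1) ^ 2 = -(1 - F v) ^ 2 := by ring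
      rw [this]
  rw [Finset.sum_ite, Finset.sum_const, Finset.sum_const, nsmul_eq_mul, nsmul_eq_mul] at h4
  have h5 : (nb U v).filter (fun i => fl v i ∈ W) = nb W v := by
    ext i
    simp only [nb, Finset.mem_filter, Finset.mem_univ, true_and, hW]
    tauto
  have h6 : ((nb U v).filter (fun i => fl v i ∈ W)).card +
      ((nb U v).filter (fun i => ¬ fl v i ∈ W)).card = (nb U v).card :=
    Finset.card_filter_add_card_filter_not _
  rw [h5] at h4 h6
  set dW : ℝ := ((nb W v).card : ℝ) with hdW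
  set dR : ℝ := (((nb U v).filter (fun i => ¬ fl v i ∈ W)).card : ℝ) with hdR
  have h7 : dW + dR = ((nb U v).card : ℝ) := by
    rw [hdW, hdR]; exact_mod_cast h6
  have h8 : (3 : ℝ) * n ≤ 8 * ((nb U v).card : ℝ) := by exact_mod_cast hdeg
  have hsq : √(n:ℝ) * √(n:ℝ) = n := Real.mul_self_sqrt (Nat.cast_nonneg _)
  have hn' : (2:ℝ) ≤ n := by exact_mod_cast hn
  have hs1 : 1 ≤ √(n:ℝ) := by
    rw [Real.one_le_sqrt]; linarith
  have h9 : 1 ≤ 4 * y * dW - 2 * y ^ 2 * dR := by nlinarith
  set s := √(n:ℝ) with hs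
  by_cases h10 : 3 * (n:ℝ) / 16 ≤ dW
  · -- dW ≥ 3 n / 16 ≥ sqrt n / 4
    have hs2 : 4 / 3 ≤ s := by
      rw [hs]
      apply Real.le_sqrt_of_sq_le
      norm_num; linarith
    nlinarith
  · push Not at h10
    have h11 : 3 * (n:ℝ) / 16 ≤ dR := by linarith
    have h12 : 1 + 3 / 8 * (y * s) ^ 2 ≤ 4 * y * dW := by
      have : (y * s) ^ 2 = y ^ 2 * n := by rw [mul_pow, sq s, hsq]
      rw [this]
      have := mul_le_mul_of_nonneg_left h11 (by positivity : 0 ≤ 2 * y ^ 2)
      nlinarith
    have h13 : y * s ≤ 4 * y * dW := by nlinarith [sq_nonneg (y * s - 4/3)]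
    have h14 : y * s ≤ y * (4 * dW) := by linarith
    have := le_of_mul_le_mul_left h14 hy0
    linarith

end CA

end LazyCops
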