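import Pool.Agent.Helper848.Lazy.Energy

namespace LazyCops

open Finset

/-- objective functional -/
noncomputable def obj {n : ℕ} (U : Finset (Cube n)) (K : ℝ) (F : Cube n → ℝ) : ℝ :=
  energy U F + 3 * ((univ.filter fun x => F x ≠ 0).card : ℝ) -
    K * ((univ.filter fun x => F x = 1).card : ℝ)

/-- admissible functions -/
structure Adm {n : ℕ} (U : Finset (Cube n)) (M : ℝ) (F : Cube n → ℝ) : Prop where
  nonneg : ∀ x, 0 ≤ F x
  le_one : ∀ x, F x ≤ 1
  supp : ∀ x, x ∉ U → F x = 0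
  card : ((univ.filter fun x => F x ≠ 0).card : ℝ) ≤ M

end LazyCops
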