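import Pool.Agent.Helper848.Lazy.Game

/-!
# Lazy Cops and Robbers on the hypercube: auxiliary definitions
-/

namespace LazyCops

/-- the vertices of the cube -/
abbrev Cube (n : ℕ) := Fin n → Bool

/-- flip coordinate `i` -/
def fl {n : ℕ} (x : Cube n) (i : Fin n) : Cube n := Function.update x i (!x i)

/-- the function `J(t) = t √((1 - log t)/2)` -/
noncomputable def J (t : ℝ) : ℝ := t * √((1 - Real.log t) / 2)

/-- Dirichlet energy of `f` on the subgraph of the cube induced on `W` (each edge is counted
twice). -/
noncomputable def energy {n : ℕ} (W : Finset (Cube n)) (f : Cube n → ℝ) : ℝ :=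
  ∑ x ∈ W, ∑ i : Fin n, if fl x i ∈ W then (f x - f (fl x i)) ^ 2 else 0

/-- indices of the neighbours of `v` in `W` -/
def nb {n : ℕ} (W : Finset (Cube n)) (v : Cube n) : Finset (Fin n) :=
  Finset.univ.filter (fun i => fl v i ∈ W)

/-- weights controlling the probability that a walk with at least `δ` equally likely choices per
step hits a vertex at distance `d` after exactly `j` steps -/
noncomputable def wt (δ : ℝ) : ℕ → ℕ → ℝ
  | 0, d => if d = 0 then 1 else 0
  | j + 1, d => (d : ℝ) / δ * wt δ j (d - 1) + wt δ j (d + 1)

end LazyCops
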