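import Pool.Agent.Helper848.Lazy.Trap

namespace LazyCops

open Finset


theorem fl_eq_iff {n : ℕ} (x v : Cube n) (i : Fin n) : fl x i = v ↔ x = fl v i := by
  constructor
  · rintro rfl; rw [fl_fl]
  · rintro rfl; rw [fl_fl]

theorem sum_fl {n : ℕ} (F : Cube n → ℝ) (i : Fin n) : ∑ x, F (fl x i) = ∑ x, F x :=
  Equiv.sum_comp (Function.Involutive.toPerm (fun x : Cube n => fl x i) (fun x => fl_fl x i)) F

theorem sumW {n : ℕ} (W : Finset (Cube n)) (g : Cube n → Fin n → ℝ) :
    ∑ x ∈ W, ∑ i, (if fl x i ∈ W then g x i else 0)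
      = ∑ i, ∑ x, if (x ∈ W ∧ fl x i ∈ W) then g x i else 0 := by
  rw [Finset.sum_comm]
  refine Finset.sum_congr rfl (fun i _ => ?_)
  rw [← Finset.sum_filter_add_sum_filter_not Finset.univ (fun x => x ∈ W)
    (fun x => if (x ∈ W ∧ fl x i ∈ W) then g x i else 0)]
  rw [Finset.sum_eq_zero (s := Finset.univ.filter (fun x => ¬ x ∈ W))
    (fun x hx => by rw [Finset.mem_filter] at hx; rw [if_neg (fun h => hx.2 h.1)]), add_zero]
  rw [show Finset.univ.filter (fun x => x ∈ W) = W by ext x; simp]
  refine Finset.sum_congr rfl (fun x hx => ?_)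
  simp [hx]

/-- TARGET 1: closure of a set of vertices -/
theorem exists_closure (n : ℕ) (X : Finset (Cube n)) :
    ∃ X' : Finset (Cube n), X ⊆ X' ∧ X'.card ≤ 5 * X.card ∧
      ∀ v, v ∉ X' → 8 * (nb X' v).card ≤ 5 * n := by
  classical
  set e : Finset (Cube n) → ℤ := fun S => ∑ x ∈ S, ∑ i : Fin n, if fl x i ∈ S then (0 : ℤ) else 1
    with he
  set Φ : Finset (Cube n) → ℤ := fun S => 4 * e S + n * S.card with hΦ
  have hne : (Finset.univ.filter (fun S : Finset (Cube n) => X ⊆ S)).Nonempty :=
    ⟨X, by simp⟩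
  obtain ⟨S, hS, hmin⟩ := Finset.exists_min_image _ Φ hne
  simp only [Finset.mem_filter, Finset.mem_univ, true_and] at hS hmin
  have he0 : 0 ≤ e S := Finset.sum_nonneg fun x _ => Finset.sum_nonneg fun i _ => by
    split_ifs <;> norm_num
  have heX : e X ≤ n * X.card := by
    calc e X ≤ ∑ x ∈ X, ∑ i : Fin n, (1 : ℤ) := by
          refine Finset.sum_le_sum fun x _ => Finset.sum_le_sum fun i _ => ?_
          split_ifs <;> norm_num
      _ = n * X.card := by simp [mul_comm]
  have hSX := hmin X (Finset.Subset.refl _)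
  rcases Nat.eq_zero_or_pos n with hn | hn
  · subst hn
    refine ⟨X, Finset.Subset.refl _, by omega, fun v _ => ?_⟩
    have : (nb X v).card ≤ (Finset.univ : Finset (Fin 0)).card := Finset.card_le_univ _
    simp at this
    simp [this]
  refine ⟨S, hS, ?_, fun v hv => ?_⟩
  · have h1 : (n : ℤ) * S.card ≤ 5 * (n * X.card) := by
      simp only [hΦ] at hSX; linarith
    have h2 : (n : ℤ) * S.card ≤ n * (5 * X.card) := by linarith
    have h3 : (0 : ℤ) < n := by exact_mod_cast hn
    have h4 := le_of_mul_le_mul_left h2 h3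
    exact_mod_cast h4
  · have h1 := hmin (insert v S) (hS.trans (Finset.subset_insert _ _))
    set d : ℤ := ((nb S v).card : ℤ) with hd
    have hd' : d = ∑ i : Fin n, if fl v i ∈ S then (1 : ℤ) else 0 := by
      rw [hd]; unfold nb; rw [Finset.card_filter]; push_cast; rfl
    have key : e (insert v S) = e S + n - 2 * d := by
      simp only [he]
      rw [Finset.sum_insert hv]
      have a1 : (∑ i : Fin n, if fl v i ∈ insert v S then (0 : ℤ) else 1) = n - d := by
        rw [hd', eq_sub_iff_add_eq, ← Finset.sum_add_distrib]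
        rw [Finset.sum_congr rfl (g := fun _ => (1 : ℤ))]
        · simp
        · intro i _
          have := fl_ne_self v i
          by_cases h : fl v i ∈ S
          · simp [h]
          · simp [h, this]
      have a2 : (∑ x ∈ S, ∑ i : Fin n, if fl x i ∈ insert v S then (0 : ℤ) else 1)
          = (∑ x ∈ S, ∑ i : Fin n, if fl x i ∈ S then (0 : ℤ) else 1) - d := by
        rw [eq_sub_iff_add_eq]
        have a3 : d = ∑ x ∈ S, ∑ i : Fin n, if fl x i = v then (1 : ℤ) else 0 := by
          rw [hd', Finset.sum_comm]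
          refine Finset.sum_congr rfl (fun i _ => ?_)
          have : ∀ x ∈ S, (if fl x i = v then (1 : ℤ) else 0) = if fl v i = x then 1 else 0 := by
            intro x _
            have : fl x i = v ↔ fl v i = x := by
              rw [fl_eq_iff]; exact eq_comm
            simp only [this]
          rw [Finset.sum_congr rfl this, Finset.sum_ite_eq]
        rw [a3, ← Finset.sum_add_distrib]
        refine Finset.sum_congr rfl (fun x hx => ?_)
        rw [← Finset.sum_add_distrib]
        refine Finset.sum_congr rfl (fun i _ => ?_)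
        by_cases h : fl x i = v
        · rw [h]; simp [hv]
        · simp [h]
      rw [a1, a2]; ring
    have hc : ((insert v S).card : ℤ) = S.card + 1 := by
      rw [Finset.card_insert_of_notMem hv]; push_cast; ring
    simp only [hΦ] at h1
    rw [key, hc] at h1
    have h5 : 8 * d ≤ 5 * n := by nlinarith
    rw [hd] at h5
    exact_mod_cast h5

/-- TARGET 2: summation by parts -/
theorem energy_symm {n : ℕ} (W : Finset (Cube n)) (f : Cube n → ℝ) :
    ∑ x ∈ W, f x * ∑ i : Fin n, (if fl x i ∈ W then (f (fl x i) - f x) else 0) =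
      - energy W f / 2 := by
  have h1 : ∑ x ∈ W, f x * ∑ i : Fin n, (if fl x i ∈ W then (f (fl x i) - f x) else 0)
      = ∑ i, ∑ x, if (x ∈ W ∧ fl x i ∈ W) then f x * (f (fl x i) - f x) else 0 := by
    rw [← sumW W (fun x i => f x * (f (fl x i) - f x))]
    refine Finset.sum_congr rfl (fun x _ => ?_)
    rw [Finset.mul_sum]
    refine Finset.sum_congr rfl (fun i _ => ?_)
    split_ifs <;> simp
  have h2 : ∑ i, ∑ x, (if (x ∈ W ∧ fl x i ∈ W) then f x * (f (fl x i) - f x) else 0)
      = ∑ i, ∑ x, if (x ∈ W ∧ fl x i ∈ W) then f (fl x i) * (f x - f (fl x i)) else 0 := by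
    refine Finset.sum_congr rfl (fun i _ => ?_)
    rw [← sum_fl _ i]
    refine Finset.sum_congr rfl (fun x _ => ?_)
    rw [fl_fl]
    by_cases h1 : x ∈ W <;> by_cases h2 : fl x i ∈ W <;> simp [h1, h2]
  have h3 : energy W f = ∑ i, ∑ x, if (x ∈ W ∧ fl x i ∈ W) then (f x - f (fl x i)) ^ 2 else 0 := by
    unfold energy
    rw [sumW W (fun x i => (f x - f (fl x i)) ^ 2)]
  have h4 : (∑ i, ∑ x, (if (x ∈ W ∧ fl x i ∈ W) then f x * (f (fl x i) - f x) else 0))
      + (∑ i, ∑ x, if (x ∈ W ∧ fl x i ∈ W) then f (fl x i) * (f x - f (fl x i)) else 0)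
      = - energy W f := by
    rw [h3, ← Finset.sum_add_distrib, ← Finset.sum_neg_distrib]
    refine Finset.sum_congr rfl (fun i _ => ?_)
    rw [← Finset.sum_add_distrib, ← Finset.sum_neg_distrib]
    refine Finset.sum_congr rfl (fun x _ => ?_)
    split_ifs
    · ring
    · simp
  rw [h1]
  linarith

/-- TARGET 3: changing one value -/
theorem energy_update {n : ℕ} (U : Finset (Cube n)) (f : Cube n → ℝ) (v : Cube n) (hv : v ∈ U)
    (t : ℝ) :
    energy U (Function.update f v t) = energy U f +
      2 * ∑ i ∈ nb U v, ((t - f (fl v i)) ^ 2 - (f v - f (fl v i)) ^ 2) := by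
  unfold energy nb
  rw [sumW U (fun x i => (Function.update f v t x - Function.update f v t (fl x i)) ^ 2),
    sumW U (fun x i => (f x - f (fl x i)) ^ 2), Finset.sum_filter, Finset.mul_sum,
    ← Finset.sum_add_distrib]
  refine Finset.sum_congr rfl (fun i _ => ?_)
  rw [← sub_eq_iff_eq_add', ← Finset.sum_sub_distrib]
  have hvi := fl_ne_self v i
  rw [Fintype.sum_eq_add v (fl v i) hvi.symm]
  · rw [fl_fl]
    by_cases h : fl v i ∈ U
    · simp only [hv, h, and_self, if_true, Function.update_self, Function.update_of_ne hvi]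
      ring
    · simp [h]
  · rintro x ⟨hx1, hx2⟩
    have h3 : fl x i ≠ v := fun h => hx2 ((fl_eq_iff x v i).mp h)
    rw [Function.update_of_ne hx1, Function.update_of_ne h3, sub_self]

end LazyCops
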