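import Mathlib

/-!
# Lazy Cops and Robbers on the hypercube: definitions
-/

namespace LazyCops

/-- The `n`-dimensional hypercube: vertices are the `0/1`-vectors of length `n`, two vertices are
adjacent when they differ in exactly one coordinate. -/
def hypercube (n : ℕ) : SimpleGraph (Fin n → Bool) where
  Adj x y := hammingDist x y = 1
  symm := ⟨fun x y h => by rw [hammingDist_comm]; exact h⟩
  loopless := ⟨fun x h => by simp at h⟩

/-- One lazy cops' turn: either nobody moves, or exactly one cop moves to an adjacent vertex. -/
def LazyMove {V : Type*} (G : SimpleGraph V) {k : ℕ} (c c' : Fin k → V) : Prop :=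
  c' = c ∨ ∃ (i : Fin k) (y : V), G.Adj (c i) y ∧ c' = Function.update c i y

/-- `CopsWin G c r`: the cops, who are to move, stand at `c`, the robber stands at `r`, and the
cops have a winning strategy from this position in the lazy game. -/
inductive CopsWin {V : Type*} (G : SimpleGraph V) {k : ℕ} : (Fin k → V) → V → Prop
  /-- a cop already is on the robber's vertex -/
  | caught (c : Fin k → V) (r : V) (i : Fin k) (h : c i = r) : CopsWin G c r
  /-- the cops have a move after which a cop is on the robber's vertex -/
  | capture (c c' : Fin k → V) (r : V) (hm : LazyMove G c c') (i : Fin k) (h : c' i = r) :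
      CopsWin G c r
  /-- the cops have a move after which they win whatever the robber does
  (the robber stays or moves to an adjacent vertex) -/
  | move (c c' : Fin k → V) (r : V) (hm : LazyMove G c c')
      (h : ∀ r' : V, r' = r ∨ G.Adj r r' → CopsWin G c' r') : CopsWin G c r

/-- The lazy cop number: the least `k` such that `k` cops can choose starting vertices from which
they win against every starting vertex of the robber. -/
noncomputable def lazyCopNumber {V : Type*} (G : SimpleGraph V) : ℕ :=
  sInf {k : ℕ | ∃ c : Fin k → V, ∀ r : V, CopsWin G c r}

end LazyCops
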