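import Pool.Agent.Helper848.Lazy.Energy

namespace LazyCops

namespace Pot

open Finset




/-- the subsets that may be removed -/
def rem {n : ℕ} (W : Finset (Cube n)) (r : ℕ) (v : Cube n) : Finset (Finset (Fin n)) :=
  (nb W v).powerset.filter (fun E => E.card ≤ r)

lemma empty_mem_rem {n : ℕ} (W : Finset (Cube n)) (r : ℕ) (v : Cube n) : ∅ ∈ rem W r v := by
  simp [rem]

/-- the max-averaging operator -/
noncomputable def op {n : ℕ} (W Z : Finset (Cube n)) (r : ℕ) (f : Cube n → ℝ) (v : Cube n) : ℝ :=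
  if v ∈ Z then
    (rem W r v).sup' ⟨∅, empty_mem_rem W r v⟩
      (fun E => (∑ i ∈ nb W v \ E, f (fl v i)) / ((nb W v \ E).card : ℝ))
  else 0

lemma op_mono {n : ℕ} (W Z : Finset (Cube n)) (r : ℕ) {f g : Cube n → ℝ} (h : ∀ v, f v ≤ g v)
    (v : Cube n) : op W Z r f v ≤ op W Z r g v := by
  unfold op
  split_ifs
  · apply Finset.sup'_mono_fun
    intro E _
    apply div_le_div_of_nonneg_right _ (Nat.cast_nonneg _)
    exact Finset.sum_le_sum (fun i _ => h _)
  · exact le_rfl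

lemma op_nonneg {n : ℕ} (W Z : Finset (Cube n)) (r : ℕ) {f : Cube n → ℝ} (h : ∀ v, 0 ≤ f v)
    (v : Cube n) : 0 ≤ op W Z r f v := by
  unfold op
  split_ifs
  · refine le_trans ?_ (Finset.le_sup' _ (empty_mem_rem W r v))
    exact div_nonneg (Finset.sum_nonneg (fun i _ => h _)) (Nat.cast_nonneg _)
  · exact le_rfl

lemma op_off {n : ℕ} (W Z : Finset (Cube n)) (r : ℕ) (f : Cube n → ℝ) {v : Cube n} (hv : v ∉ Z) :
    op W Z r f v = 0 := by
  simp [op, hv]

/-- the sequence of potentials -/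
noncomputable def pot {n : ℕ} (W Z : Finset (Cube n)) (r : ℕ) : ℕ → Cube n → ℝ
  | 0 => fun v => if v ∈ Z then 1 else 0
  | s + 1 => op W Z r (pot W Z r s)

lemma pot_nonneg {n : ℕ} (W Z : Finset (Cube n)) (r s : ℕ) (v : Cube n) : 0 ≤ pot W Z r s v := by
  induction s generalizing v with
  | zero => unfold pot; split_ifs <;> norm_num
  | succ s ih => exact op_nonneg W Z r ih v

lemma pot_off {n : ℕ} (W Z : Finset (Cube n)) (r s : ℕ) {v : Cube n} (hv : v ∉ Z) :
    pot W Z r s v = 0 := by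
  cases s with
  | zero => simp [pot, hv]
  | succ s => exact op_off W Z r _ hv

lemma pot_zero_le {n : ℕ} (W Z : Finset (Cube n)) (r : ℕ) (v : Cube n) : pot W Z r 0 v ≤ 1 := by
  unfold pot; split_ifs <;> norm_num

lemma pot_anti {n : ℕ} (W Z : Finset (Cube n)) (r s : ℕ) (v : Cube n) :
    pot W Z r (s + 1) v ≤ pot W Z r s v := by
  induction s generalizing v with
  | zero =>
    by_cases hv : v ∈ Z
    · have h0 : pot W Z r 0 v = 1 := by simp [pot, hv]
      rw [h0]
      show op W Z r (pot W Z r 0) v ≤ 1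
      unfold op
      rw [if_pos hv]
      apply Finset.sup'_le
      intro E _
      apply div_le_one_of_le₀ _ (Nat.cast_nonneg _)
      calc ∑ i ∈ nb W v \ E, pot W Z r 0 (fl v i) ≤ ∑ i ∈ nb W v \ E, (1 : ℝ) :=
            Finset.sum_le_sum (fun i _ => pot_zero_le W Z r _)
        _ = _ := by simp
    · rw [pot_off _ _ _ _ hv, pot_off _ _ _ _ hv]
  | succ s ih => exact op_mono W Z r ih v

lemma energy_eq {n : ℕ} (W : Finset (Cube n)) (f : Cube n → ℝ) :
    energy W f = ∑ x ∈ W, ∑ i ∈ nb W x, (f x - f (fl x i)) ^ 2 := by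
  unfold energy nb
  refine Finset.sum_congr rfl (fun x _ => ?_)
  rw [Finset.sum_filter]

/-- the Laplacian -/
noncomputable def lap {n : ℕ} (W : Finset (Cube n)) (f : Cube n → ℝ) (v : Cube n) : ℝ :=
  ∑ i ∈ nb W v, (f (fl v i) - f v)

lemma lap_eq {n : ℕ} (W : Finset (Cube n)) (f : Cube n → ℝ) (v : Cube n) :
    lap W f v = ∑ i : Fin n, (if fl v i ∈ W then (f (fl v i) - f v) else 0) := by
  unfold lap nb
  rw [Finset.sum_filter]

lemma nb_card_le {n : ℕ} (W : Finset (Cube n)) (v : Cube n) : (nb W v).card ≤ n := by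
  calc (nb W v).card ≤ (Finset.univ : Finset (Fin n)).card := Finset.card_le_card (Finset.subset_univ _)
    _ = n := by simp

lemma lap_sq_le {n : ℕ} (W : Finset (Cube n)) (f : Cube n → ℝ) (v : Cube n) :
    lap W f v ^ 2 ≤ n * ∑ i ∈ nb W v, (f v - f (fl v i)) ^ 2 := by
  unfold lap
  refine (sq_sum_le_card_mul_sum_sq).trans ?_
  have h1 : ∑ i ∈ nb W v, (f (fl v i) - f v) ^ 2 = ∑ i ∈ nb W v, (f v - f (fl v i)) ^ 2 :=
    Finset.sum_congr rfl (fun i _ => by ring)
  rw [h1]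
  apply mul_le_mul_of_nonneg_right _ (Finset.sum_nonneg (fun i _ => sq_nonneg _))
  exact_mod_cast nb_card_le W v

lemma pointwise {n r : ℕ} (W Z : Finset (Cube n)) (hn : 0 < n) (f : Cube n → ℝ) (v : Cube n)
    (hv : v ∈ Z) (hdeg : r < (nb W v).card) (hop : op W Z r f v ≤ f v) :
    ∃ e : ℝ, op W Z r f v ≤ f v + lap W f v / (2 * n) + e ∧
      e ^ 2 ≤ r / (4 * n ^ 2) * ∑ i ∈ nb W v, (f v - f (fl v i)) ^ 2 := by
  have hn' : (0 : ℝ) < n := by exact_mod_cast hn
  obtain ⟨E, hE, hE2⟩ := Finset.exists_mem_eq_sup' ⟨∅, empty_mem_rem W r v⟩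
    (fun E => (∑ i ∈ nb W v \ E, f (fl v i)) / ((nb W v \ E).card : ℝ))
  have hopE : op W Z r f v = (∑ i ∈ nb W v \ E, f (fl v i)) / ((nb W v \ E).card : ℝ) := by
    unfold op
    rw [if_pos hv]; exact hE2
  unfold rem at hE
  rw [Finset.mem_filter, Finset.mem_powerset] at hE
  obtain ⟨hEs, hEc⟩ := hE
  have hcard : (nb W v \ E).card + E.card = (nb W v).card := Finset.card_sdiff_add_card_eq_card hEs
  have hd1 : 0 < (nb W v \ E).card := by omega
  have hdn : (nb W v \ E).card ≤ n := by have := nb_card_le W v; omega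
  have hd1' : (0 : ℝ) < ((nb W v \ E).card : ℝ) := by exact_mod_cast hd1
  have hdn' : ((nb W v \ E).card : ℝ) ≤ n := by exact_mod_cast hdn
  refine ⟨(∑ i ∈ E, (f v - f (fl v i))) / (2 * n), ?_, ?_⟩
  · have hS : ∑ i ∈ nb W v \ E, (f (fl v i) - f v) =
        ((nb W v \ E).card : ℝ) * (op W Z r f v - f v) := by
      rw [hopE, Finset.sum_sub_distrib, mul_sub, mul_div_cancel₀ _ hd1'.ne']
      simp
    have hL : lap W f v = ∑ i ∈ nb W v \ E, (f (fl v i) - f v) + ∑ i ∈ E, (f (fl v i) - f v) := by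
      unfold lap
      exact (Finset.sum_sdiff hEs).symm
    have hneg : ∑ i ∈ E, (f v - f (fl v i)) = - ∑ i ∈ E, (f (fl v i) - f v) := by
      rw [← Finset.sum_neg_distrib]
      exact Finset.sum_congr rfl (fun i _ => by ring)
    have e1 : f v + lap W f v / (2 * n) + (∑ i ∈ E, (f v - f (fl v i))) / (2 * n) =
        f v + ((nb W v \ E).card : ℝ) / (2 * n) * (op W Z r f v - f v) := by
      rw [hL, hneg, hS]; ring
    rw [e1]
    have h2 : ((nb W v \ E).card : ℝ) / (2 * n) ≤ 1 := by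
      rw [div_le_one (by positivity)]; linarith
    have h3 : op W Z r f v - f v ≤ 0 := by linarith
    nlinarith
  · rw [div_pow]
    have h1 : (∑ i ∈ E, (f v - f (fl v i))) ^ 2 ≤ r * ∑ i ∈ nb W v, (f v - f (fl v i)) ^ 2 := by
      refine (sq_sum_le_card_mul_sum_sq).trans ?_
      apply mul_le_mul
      · exact_mod_cast hEc
      · exact Finset.sum_le_sum_of_subset_of_nonneg hEs (fun i _ _ => sq_nonneg _)
      · exact Finset.sum_nonneg (fun i _ => sq_nonneg _)
      · exact Nat.cast_nonneg _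
    rw [div_mul_eq_mul_div]
    have : (2 * (n : ℝ)) ^ 2 = 4 * n ^ 2 := by ring
    rw [this]
    exact div_le_div_of_nonneg_right h1 (by positivity)

lemma contract {n r : ℕ} (W Z : Finset (Cube n)) (hZW : Z ⊆ W) (K : ℝ)
    (hdeg : ∀ v ∈ W, r < (nb W v).card) (hr : 1 ≤ r) (hK : 128 * (r : ℝ) ≤ K) (hn : 8 * r ≤ n)
    (f : Cube n → ℝ) (hf0 : ∀ v, 0 ≤ f v) (hfZ : ∀ v, v ∉ Z → f v = 0)
    (hop : ∀ v, op W Z r f v ≤ f v)
    (hFK : K * ∑ x, f x ^ 2 ≤ energy W f) :
    ∑ x, (op W Z r f x) ^ 2 ≤ (1 - K / (8 * n)) * ∑ x, f x ^ 2 := by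
  have hn0 : 0 < n := by omega
  have hn' : (0 : ℝ) < n := by exact_mod_cast hn0
  have hr' : (1 : ℝ) ≤ r := by exact_mod_cast hr
  have hr0 : (0 : ℝ) < r := by linarith
  have hK0 : 0 < K := by nlinarith
  have hn8 : 8 * (r : ℝ) ≤ n := by exact_mod_cast hn
  have hex : ∀ v : Cube n, ∃ e : ℝ, (v ∈ Z → op W Z r f v ≤ f v + lap W f v / (2 * n) + e) ∧
      e ^ 2 ≤ r / (4 * n ^ 2) * ∑ i ∈ nb W v, (f v - f (fl v i)) ^ 2 := by
    intro v
    by_cases hv : v ∈ Z
    · obtain ⟨e, h1, h2⟩ := pointwise W Z hn0 f v hv (hdeg v (hZW hv)) (hop v)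
      exact ⟨e, fun _ => h1, h2⟩
    · refine ⟨0, fun h => absurd h hv, ?_⟩
      have : 0 ≤ ∑ i ∈ nb W v, (f v - f (fl v i)) ^ 2 := Finset.sum_nonneg (fun i _ => sq_nonneg _)
      have h2 : (0 : ℝ) ≤ r / (4 * n ^ 2) := by positivity
      nlinarith [mul_nonneg h2 this]
  choose e he1 he2 using hex
  set P : Cube n → ℝ := fun v => f v + lap W f v / (2 * n) with hP
  set N : ℝ := ∑ x, f x ^ 2 with hN
  set En : ℝ := energy W f with hEn
  have hsumW : ∑ x ∈ W, f x ^ 2 = N := by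
    rw [hN]
    apply Finset.sum_subset (Finset.subset_univ _)
    intro x _ hx
    rw [hfZ x (fun h => hx (hZW h))]; norm_num
  have hEn0 : 0 ≤ En := by
    rw [hEn, energy_eq]
    exact Finset.sum_nonneg (fun x _ => Finset.sum_nonneg (fun i _ => sq_nonneg _))
  -- sum of squares of P
  have hPsq : ∑ x ∈ W, P x ^ 2 ≤ N - En / (4 * n) := by
    have e1 : ∑ x ∈ W, P x ^ 2 = ∑ x ∈ W, f x ^ 2 + (∑ x ∈ W, f x * lap W f x) / n +
        (∑ x ∈ W, lap W f x ^ 2) / (4 * n ^ 2) := by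
      rw [Finset.sum_div, Finset.sum_div, ← Finset.sum_add_distrib, ← Finset.sum_add_distrib]
      refine Finset.sum_congr rfl (fun x _ => ?_)
      rw [hP]; field_simp; ring
    have e2 : ∑ x ∈ W, f x * lap W f x = - En / 2 := by
      rw [hEn, ← energy_symm]
      exact Finset.sum_congr rfl (fun x _ => by rw [lap_eq])
    have e3 : ∑ x ∈ W, lap W f x ^ 2 ≤ n * En := by
      rw [hEn, energy_eq, Finset.mul_sum]
      exact Finset.sum_le_sum (fun x _ => lap_sq_le W f x)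
    rw [e1, e2, hsumW]
    have e4 : (∑ x ∈ W, lap W f x ^ 2) / (4 * n ^ 2) ≤ En / (4 * n) := by
      rw [div_le_div_iff₀ (by positivity) (by positivity)]
      nlinarith
    have e5 : - En / 2 / n = - (En / (4 * n)) - En / (4 * n) := by field_simp; ring
    rw [e5]; linarith
  have hesq : ∑ x ∈ W, e x ^ 2 ≤ r / (4 * n ^ 2) * En := by
    rw [hEn, energy_eq, Finset.mul_sum]
    exact Finset.sum_le_sum (fun x _ => he2 x)
  have hmain : ∑ x, (op W Z r f x) ^ 2 ≤ ∑ x ∈ W, (P x + e x) ^ 2 := by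
    have h1 : ∑ x, (op W Z r f x) ^ 2 = ∑ x ∈ Z, (op W Z r f x) ^ 2 := by
      symm
      apply Finset.sum_subset (Finset.subset_univ _)
      intro x _ hx
      rw [op_off _ _ _ _ hx]; norm_num
    rw [h1]
    calc ∑ x ∈ Z, (op W Z r f x) ^ 2 ≤ ∑ x ∈ Z, (P x + e x) ^ 2 := by
          apply Finset.sum_le_sum
          intro x hx
          exact pow_le_pow_left₀ (op_nonneg W Z r hf0 x) (he1 x hx) 2
      _ ≤ _ := Finset.sum_le_sum_of_subset_of_nonneg hZW (fun i _ _ => sq_nonneg _)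
  have hsplit : ∑ x ∈ W, (P x + e x) ^ 2 ≤ (1 + 4 * r / n) * ∑ x ∈ W, P x ^ 2 +
      (1 + n / (4 * r)) * ∑ x ∈ W, e x ^ 2 := by
    rw [Finset.mul_sum, Finset.mul_sum, ← Finset.sum_add_distrib]
    apply Finset.sum_le_sum
    intro x _
    have h : (1 + 4 * r / n) * P x ^ 2 + (1 + n / (4 * r)) * e x ^ 2 - (P x + e x) ^ 2 =
        (4 * r / n) * (P x - n / (4 * r) * e x) ^ 2 := by
      field_simp; ring
    have h2 : 0 ≤ (4 * r / n) * (P x - n / (4 * r) * e x) ^ 2 := by positivity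
    linarith
  have hNE : N ≤ En / K := by rw [le_div_iff₀ hK0]; linarith
  have hP0 : 0 ≤ ∑ x ∈ W, P x ^ 2 := Finset.sum_nonneg (fun x _ => sq_nonneg _)
  have hb1 : (1 + 4 * r / n) * ∑ x ∈ W, P x ^ 2 ≤ (1 + 4 * r / n) * (N - En / (4 * n)) :=
    mul_le_mul_of_nonneg_left hPsq (by positivity)
  have hb2 : (1 + n / (4 * r)) * ∑ x ∈ W, e x ^ 2 ≤ (1 + n / (4 * r)) * (r / (4 * n ^ 2) * En) :=
    mul_le_mul_of_nonneg_left hesq (by positivity)
  have hb3 : (4 * r / n) * N ≤ En / (32 * n) := by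
    calc (4 * r / n) * N ≤ (4 * r / n) * (En / K) := mul_le_mul_of_nonneg_left hNE (by positivity)
      _ = (4 * r * En) / (n * K) := by field_simp
      _ ≤ _ := by
        rw [div_le_div_iff₀ (by positivity) (by positivity)]
        have : 0 ≤ En * n := by positivity
        nlinarith
  have hb4 : r / (4 * n ^ 2) * En ≤ En / (32 * n) := by
    rw [div_mul_eq_mul_div, div_le_div_iff₀ (by positivity) (by positivity)]
    have : 0 ≤ En * n := by positivity
    nlinarith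
  have hb5 : n / (4 * r) * (r / (4 * n ^ 2) * En) = En / (16 * n) := by
    field_simp; ring
  have hb6 : 0 ≤ (4 * r / n) * (En / (4 * n)) := by positivity
  have hb7 : K * N / (8 * n) ≤ En / (8 * n) := div_le_div_of_nonneg_right hFK (by positivity)
  have e1 : (1 + 4 * r / n) * (N - En / (4 * n)) =
      N - En / (4 * n) + (4 * r / n) * N - (4 * r / n) * (En / (4 * n)) := by ring
  have e2 : (1 + n / (4 * r)) * (r / (4 * n ^ 2) * En) =
      r / (4 * n ^ 2) * En + n / (4 * r) * (r / (4 * n ^ 2) * En) := by ring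
  have e3 : (1 - K / (8 * n)) * N = N - K * N / (8 * n) := by ring
  have e4 : En / (4 * n) = En / (8 * n) + En / (16 * n) + En / (32 * n) + En / (32 * n) := by
    field_simp; ring
  rw [e3]
  linarith

/-- TARGET: the hitting potential -/
theorem exists_potential {n r T : ℕ} (W Z : Finset (Cube n)) (hZW : Z ⊆ W) (K : ℝ)
    (hdeg : ∀ v ∈ W, r < (nb W v).card)
    (hFK : ∀ f : Cube n → ℝ, (∀ x, 0 ≤ f x) → (∀ x, x ∉ Z → f x = 0) →
      K * ∑ x, f x ^ 2 ≤ energy W f)
    (hr : 1 ≤ r) (hK : 128 * (r : ℝ) ≤ K) (hn : 8 * r ≤ n)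
    (hT : Real.exp (-(K * T / (8 * n))) * 2 ^ n ≤ 1 / 16) :
    ∃ Q : ℕ → Cube n → ℝ, (∀ s v, 0 ≤ Q s v) ∧ (∀ v ∈ Z, Q 0 v = 1) ∧
      (∀ s, ∀ v ∈ Z, ∀ S ⊆ nb W v, (nb W v).card ≤ S.card + r →
        ∑ i ∈ S, Q s (fl v i) ≤ S.card * Q (s + 1) v) ∧
      (∀ v, Q T v ≤ 1 / 4) := by
  refine ⟨pot W Z r, fun s v => pot_nonneg W Z r s v, fun v hv => by simp [pot, hv], ?_, ?_⟩
  · intro s v hv S hS hSc
    have hd := hdeg v (hZW hv)
    have hSpos : 0 < S.card := by omega
    have hSpos' : (0 : ℝ) < S.card := by exact_mod_cast hSpos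
    have hE : nb W v \ S ∈ rem W r v := by
      unfold rem
      rw [Finset.mem_filter, Finset.mem_powerset]
      refine ⟨Finset.sdiff_subset, ?_⟩
      have := Finset.card_sdiff_add_card_eq_card hS
      omega
    have hEE : nb W v \ (nb W v \ S) = S := Finset.sdiff_sdiff_eq_self hS
    have h1 : (∑ i ∈ S, pot W Z r s (fl v i)) / (S.card : ℝ) ≤ pot W Z r (s + 1) v := by
      show _ ≤ op W Z r (pot W Z r s) v
      unfold op
      rw [if_pos hv]
      have := Finset.le_sup' (fun E => (∑ i ∈ nb W v \ E, pot W Z r s (fl v i)) /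
        ((nb W v \ E).card : ℝ)) hE
      simp only [hEE] at this
      exact this
    rw [div_le_iff₀ hSpos'] at h1
    linarith
  · have hind : ∀ t : ℕ, ∑ x, (pot W Z r t x) ^ 2 ≤ Real.exp (-(K / (8 * n))) ^ t * 2 ^ n := by
      intro t
      induction t with
      | zero =>
        rw [pow_zero, one_mul]
        calc ∑ x, (pot W Z r 0 x) ^ 2 ≤ ∑ x : Cube n, (1 : ℝ) := by
              apply Finset.sum_le_sum
              intro x _
              have := pot_zero_le W Z r x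
              have := pot_nonneg W Z r 0 x
              nlinarith
          _ = 2 ^ n := by simp [Fintype.card_pi]
      | succ t ih =>
        have hc := contract W Z hZW K hdeg hr hK hn (pot W Z r t) (pot_nonneg W Z r t)
          (fun v hv => pot_off W Z r t hv) (fun v => pot_anti W Z r t v)
          (hFK _ (pot_nonneg W Z r t) (fun v hv => pot_off W Z r t hv))
        have hx : 1 - K / (8 * n) ≤ Real.exp (-(K / (8 * n))) := by
          have := Real.add_one_le_exp (-(K / (8 * n))); linarith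
        have hN0 : 0 ≤ ∑ x, (pot W Z r t x) ^ 2 := Finset.sum_nonneg (fun x _ => sq_nonneg _)
        calc ∑ x, (pot W Z r (t + 1) x) ^ 2 ≤ (1 - K / (8 * n)) * ∑ x, (pot W Z r t x) ^ 2 := hc
          _ ≤ Real.exp (-(K / (8 * n))) * ∑ x, (pot W Z r t x) ^ 2 :=
            mul_le_mul_of_nonneg_right hx hN0
          _ ≤ Real.exp (-(K / (8 * n))) * (Real.exp (-(K / (8 * n))) ^ t * 2 ^ n) :=
            mul_le_mul_of_nonneg_left ih (Real.exp_pos _).le
          _ = _ := by ring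
    intro v
    have h1 := hind T
    have h2 : Real.exp (-(K / (8 * n))) ^ T = Real.exp (-(K * T / (8 * n))) := by
      rw [← Real.exp_nat_mul]; congr 1; ring
    rw [h2] at h1
    have h3 : (pot W Z r T v) ^ 2 ≤ ∑ x, (pot W Z r T x) ^ 2 :=
      Finset.single_le_sum (f := fun x => (pot W Z r T x) ^ 2) (fun x _ => sq_nonneg _)
        (Finset.mem_univ v)
    have h4 : (pot W Z r T v) ^ 2 ≤ 1 / 16 := by linarith
    have h5 := pot_nonneg W Z r T v
    nlinarith

end Pot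

end LazyCops
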