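import Pool.Agent.Helper848.Lazy.Trap

open Finset

namespace LazyCops

variable {n k : ℕ}

theorem LazyMove.exists_small {c c' : Fin k → Cube n} (h : LazyMove (hypercube n) c c') :
    ∃ I : Finset (Fin k), I.card ≤ 1 ∧ (∀ i, i ∉ I → c' i = c i) ∧
      ∀ i, hammingDist (c i) (c' i) ≤ 1 := by
  rcases h with rfl | ⟨i, y, hy, rfl⟩
  · exact ⟨∅, by simp, fun _ _ => rfl, fun i => by simp⟩
  · refine ⟨{i}, by simp, ?_, ?_⟩
    · intro j hj
      rw [mem_singleton] at hj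
      rw [Function.update_of_ne hj]
    · intro j
      by_cases hj : j = i
      · subst hj
        rw [Function.update_self]
        exact le_of_eq hy
      · rw [Function.update_of_ne hj]; simp

/-- state at the robber's turn (without potentials) -/
structure RState (G : Finset (Cube n) → Prop) (ℓ : ℕ) (c : Fin k → Cube n) (v : Cube n)
    (W : Finset (Cube n)) (Mob : Finset (Fin k)) (Z : ℕ → Finset (Cube n))
    (B : ℕ → Finset (Fin k)) : Prop where
  gW : G W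
  vW : v ∈ W
  safe : ∀ i, i ∉ Mob → ∀ w ∈ W, 2 ≤ hammingDist (c i) w
  far : ∀ i, 1 ≤ hammingDist (c i) v
  cardB : ∀ j, j ≤ ℓ → (B j).card ≤ ℓ - j
  trap : ∀ j, j ≤ ℓ → ∀ i ∈ Mob, i ∉ B j → ∀ u, hammingDist (c i) u ≤ 2 → u ∈ Z j

/-- state at the cops' turn (without potentials) -/
structure CState (G : Finset (Cube n) → Prop) (ℓ : ℕ) (c : Fin k → Cube n) (v : Cube n)
    (W : Finset (Cube n)) (Mob : Finset (Fin k)) (Z : ℕ → Finset (Cube n))
    (B : ℕ → Finset (Fin k)) : Prop where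
  gW : G W
  vW : v ∈ W
  safe : ∀ i, i ∉ Mob → ∀ w ∈ W, 2 ≤ hammingDist (c i) w
  far : ∀ i, 2 ≤ hammingDist (c i) v
  cardB : ∀ j, j < ℓ → (B j).card + 1 ≤ ℓ - j
  trap : ∀ j, j < ℓ → ∀ i ∈ Mob, i ∉ B j → ∀ u, hammingDist (c i) u ≤ 2 → u ∈ Z j

theorem RState.step {G : Finset (Cube n) → Prop} {ℓ : ℕ} {δ : ℝ} (hδ : 0 < δ)
    (hG : ∀ W, G W → ∀ v ∈ W, δ + 2 * ℓ ≤ ((nb W v).card : ℝ))
    {c : Fin k → Cube n} {v : Cube n} {W : Finset (Cube n)} {Mob : Finset (Fin k)}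
    {Z : ℕ → Finset (Cube n)} {B : ℕ → Finset (Fin k)} (hs : RState G ℓ c v W Mob Z B)
    (a : ℕ → ℝ) (ha : ∀ j, 1 ≤ a j) (R R' : Cube n → ℝ) (hR : 0 ≤ R v) (κ : ℝ) (hκ : 0 ≤ κ)
    (hRR : ∀ S ⊆ nb W v, (nb W v).card ≤ S.card + 2 * ℓ →
      ∑ i ∈ S, R' (fl v i) ≤ S.card * R v)
    (hΦ : R v + ∑ j ∈ range (ℓ + 1), a j * tau δ j v (Z j) + κ < 1) :
    ∃ u, (hypercube n).Adj v u ∧
      R' u + ∑ j ∈ range ℓ, a (j + 1) * tau δ j u (Z (j + 1)) + κ < 1 ∧
      CState G ℓ c u W Mob (fun j => Z (j + 1)) (fun j => B (j + 1)) := by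
  classical
  have hpos : ∀ j, 0 ≤ a j * tau δ j v (Z j) := fun j =>
    mul_nonneg (zero_le_one.trans (ha j)) (tau_nonneg hδ.le _ _ _)
  -- `v` is not in the current trap
  have hv0 : v ∉ Z 0 := by
    intro hmem
    have h1 := one_le_tau_zero hδ.le hmem
    have h2 : a 0 * tau δ 0 v (Z 0) ≤ ∑ j ∈ range (ℓ + 1), a j * tau δ j v (Z j) :=
      single_le_sum (f := fun j => a j * tau δ j v (Z j)) (fun j _ => hpos j)
        (mem_range.2 (Nat.succ_pos ℓ))
    have h3 : (1 : ℝ) ≤ a 0 * tau δ 0 v (Z 0) := by nlinarith [ha 0]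
    linarith
  -- allowed moves
  set S : Finset (Fin n) := (nb W v).filter (fun i => ∀ m, 2 ≤ hammingDist (c m) (fl v i)) with hS
  have hSsub : S ⊆ nb W v := filter_subset _ _
  have hblock : (nb W v) ⊆ S ∪ (B 0).biUnion
      (fun m => univ.filter fun i : Fin n => hammingDist (c m) (fl v i) ≤ 1) := by
    intro i hi
    rw [mem_union]
    by_cases hiS : i ∈ S
    · exact Or.inl hiS
    · right
      rw [hS, mem_filter] at hiS
      have : ∃ m, ¬ 2 ≤ hammingDist (c m) (fl v i) := by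
        by_contra hcon
        exact hiS ⟨hi, fun m => by_contra fun h => hcon ⟨m, h⟩⟩
      obtain ⟨m, hm⟩ := this
      have hiW : fl v i ∈ W := (mem_filter.1 hi).2
      have hmMob : m ∈ Mob := by
        by_contra hmm
        exact hm (hs.safe m hmm _ hiW)
      have hmB : m ∈ B 0 := by
        by_contra hmm
        apply hv0
        apply hs.trap 0 (Nat.zero_le _) m hmMob hmm
        have ht := hammingDist_triangle (c m) (fl v i) v
        have h1 : hammingDist (fl v i) v = 1 := by rw [hammingDist_comm]; exact dist_fl_self v i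
        omega
      rw [mem_biUnion]
      refine ⟨m, hmB, ?_⟩
      simp only [mem_filter, mem_univ, true_and]
      omega
  have hcard : (nb W v).card ≤ S.card + 2 * ℓ := by
    refine (card_le_card hblock).trans ((card_union_le _ _).trans ?_)
    have h1 : ((B 0).biUnion
      (fun m => univ.filter fun i : Fin n => hammingDist (c m) (fl v i) ≤ 1)).card ≤
        (B 0).card * 2 :=
      card_biUnion_le_card_mul _ _ _ fun m _ => card_blocked (c m) v (hs.far m)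
    have h2 := hs.cardB 0 (Nat.zero_le _)
    omega
  have hSδ : δ ≤ (S.card : ℝ) := by
    have h1 := hG W hs.gW v hs.vW
    have h2 : ((nb W v).card : ℝ) ≤ S.card + 2 * ℓ := by exact_mod_cast hcard
    linarith
  have hSpos : (0 : ℝ) < S.card := hδ.trans_le hSδ
  have hsum : ∑ i ∈ S, (R' (fl v i) + ∑ j ∈ range ℓ, a (j + 1) * tau δ j (fl v i) (Z (j + 1)) + κ)
      < ∑ i ∈ S, (1 : ℝ) := by
    rw [sum_add_distrib, sum_add_distrib, sum_const, nsmul_eq_mul, sum_const, nsmul_eq_mul]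
    have h1 := hRR S hSsub hcard
    have h2 : ∑ i ∈ S, ∑ j ∈ range ℓ, a (j + 1) * tau δ j (fl v i) (Z (j + 1)) ≤
        S.card * ∑ j ∈ range ℓ, a (j + 1) * tau δ (j + 1) v (Z (j + 1)) := by
      rw [sum_comm, mul_sum]
      apply sum_le_sum
      intro j _
      rw [← mul_sum]
      have := tau_avg hδ v (Z (j + 1)) j S hSδ
      calc a (j + 1) * ∑ i ∈ S, tau δ j (fl v i) (Z (j + 1))
          ≤ a (j + 1) * (S.card * tau δ (j + 1) v (Z (j + 1))) :=
            mul_le_mul_of_nonneg_left this (zero_le_one.trans (ha _))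
        _ = _ := by ring
    have h3 : ∑ j ∈ range ℓ, a (j + 1) * tau δ (j + 1) v (Z (j + 1)) ≤
        ∑ j ∈ range (ℓ + 1), a j * tau δ j v (Z j) := by
      rw [sum_range_succ']
      linarith [hpos 0]
    have h4 : R v + ∑ j ∈ range ℓ, a (j + 1) * tau δ (j + 1) v (Z (j + 1)) + κ < 1 := by linarith
    nlinarith
  obtain ⟨i, hiS, hi⟩ := exists_lt_of_sum_lt hsum
  refine ⟨fl v i, adj_fl v i, hi, ?_⟩
  rw [hS, mem_filter] at hiS
  refine ⟨hs.gW, (mem_filter.1 hiS.1).2, hs.safe, hiS.2, ?_, ?_⟩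
  · intro j hj
    have := hs.cardB (j + 1) (by omega)
    show (B (j + 1)).card + 1 ≤ ℓ - j
    omega
  · intro j hj
    exact hs.trap (j + 1) (by omega)

theorem CState.step {G : Finset (Cube n) → Prop} {ℓ : ℕ}
    {c c' : Fin k → Cube n} {v : Cube n} {W : Finset (Cube n)} {Mob : Finset (Fin k)}
    {Z : ℕ → Finset (Cube n)} {B : ℕ → Finset (Fin k)} (hs : CState G ℓ c v W Mob Z B)
    {I : Finset (Fin k)} (hI1 : I.card ≤ 1) (hI2 : ∀ i, i ∉ I → c' i = c i)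
    (hI3 : ∀ i, hammingDist (c i) (c' i) ≤ 1) :
    RState G ℓ c' v W (Mob ∪ I) (fun j => if j < ℓ then Z j else trapSet c' (Mob ∪ I))
      (fun j => if j < ℓ then B j ∪ I else ∅) := by
  classical
  refine ⟨hs.gW, hs.vW, ?_, ?_, ?_, ?_⟩
  · intro i hi w hw
    rw [mem_union, not_or] at hi
    rw [hI2 i hi.2]
    exact hs.safe i hi.1 w hw
  · intro i
    have h1 := hs.far i
    have h2 := hI3 i
    have h3 := hammingDist_triangle (c i) (c' i) v
    omega
  · intro j hj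
    by_cases hjl : j < ℓ
    · simp only [hjl, if_true]
      have h1 := card_union_le (B j) I
      have h2 := hs.cardB j hjl
      omega
    · simp only [hjl, if_false]; simp
  · intro j hj i hi hiB u hu
    by_cases hjl : j < ℓ
    · simp only [hjl, if_true] at hiB ⊢
      rw [mem_union, not_or] at hiB
      have hiM : i ∈ Mob := by
        rcases mem_union.1 hi with h | h
        · exact h
        · exact absurd h hiB.2
      rw [hI2 i hiB.2] at hu
      exact hs.trap j hjl i hiM hiB.1 u hu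
    · simp only [hjl, if_false]
      unfold trapSet
      rw [mem_biUnion]
      exact ⟨i, hi, by simpa using hu⟩

/-- all the hypotheses used by the robber's strategy -/
structure Setup (n k : ℕ) where
  G : Finset (Cube n) → Prop
  ℓ : ℕ
  T : ℕ
  δ : ℝ
  b : ℝ
  hℓ : 1 ≤ ℓ
  hδ : 0 < δ
  hℓδ : (ℓ : ℝ) ≤ δ
  hb0 : 0 ≤ b
  hb : ((2 * T + ℓ : ℕ) : ℝ) * ((n + 1 : ℕ) : ℝ) ^ 2 * (2 * √(ℓ / δ)) ^ ℓ ≤ b
  hb1 : 8 * (ℓ : ℝ) * b ≤ 1
  hb2 : 16 * (T : ℝ) * b ≤ 1
  map : ∀ c : Fin k → Cube n, ∃ W, G W ∧ W.Nonempty ∧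
    ∀ i, ∀ w ∈ W, 2 ≤ hammingDist (c i) w
  deg : ∀ W, G W → ∀ v ∈ W, δ + 2 * ℓ ≤ ((nb W v).card : ℝ)
  pot : ∀ W W', G W → G W' → ∃ Q : ℕ → Cube n → ℝ, (∀ s v, 0 ≤ Q s v) ∧
    (∀ v ∈ W, v ∉ W' → Q 0 v = 1) ∧
    (∀ s, ∀ v ∈ W, v ∉ W' → ∀ S ⊆ nb W v, (nb W v).card ≤ S.card + 2 * ℓ →
      ∑ i ∈ S, Q s (fl v i) ≤ S.card * Q (s + 1) v) ∧ ∀ v, Q T v ≤ 1 / 4

namespace Setup

variable (P : Setup n k)

theorem tau_trap (c : Fin k → Cube n) (v : Cube n) (Mob : Finset (Fin k))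
    (hM : Mob.card ≤ 2 * P.T + P.ℓ) : tau P.δ P.ℓ v (trapSet c Mob) ≤ P.b := by
  refine (tau_le P.hℓδ P.hδ v _).trans (le_trans ?_ P.hb)
  have h1 := card_trapSet c Mob
  have h2 : (trapSet c Mob).card ≤ (2 * P.T + P.ℓ) * (n + 1) ^ 2 :=
    h1.trans (Nat.mul_le_mul_right _ hM)
  have h3 : ((trapSet c Mob).card : ℝ) ≤ ((2 * P.T + P.ℓ : ℕ) : ℝ) * ((n + 1 : ℕ) : ℝ) ^ 2 := by
    exact_mod_cast h2
  have : (0 : ℝ) ≤ (2 * √((P.ℓ : ℝ) / P.δ)) ^ P.ℓ := by positivity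
  exact mul_le_mul_of_nonneg_right h3 this

/-- coefficient in the cool-down phase -/
def coef (p j : ℕ) : ℝ := if j ≤ p then 1 else 4

theorem one_le_coef (p j : ℕ) : 1 ≤ coef p j := by
  unfold coef; split_ifs <;> norm_num

theorem coef_le (p j : ℕ) : coef p j ≤ 4 := by
  unfold coef; split_ifs <;> norm_num

/-- robber's turn, hitting phase -/
def HitR (c : Fin k → Cube n) (v : Cube n) : Prop :=
  ∃ (W W2 : Finset (Cube n)) (Mob Mob2 : Finset (Fin k)) (Z : ℕ → Finset (Cube n))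
    (B : ℕ → Finset (Fin k)) (Q : ℕ → Cube n → ℝ) (rem : ℕ),
    RState P.G P.ℓ c v W Mob Z B ∧ P.G W2 ∧
    (∀ i, i ∉ Mob2 → ∀ w ∈ W2, 2 ≤ hammingDist (c i) w) ∧ Mob2 ⊆ Mob ∧
    (∀ s v, 0 ≤ Q s v) ∧ (∀ v ∈ W, v ∉ W2 → Q 0 v = 1) ∧
    (∀ s, ∀ v ∈ W, v ∉ W2 → ∀ S ⊆ nb W v, (nb W v).card ≤ S.card + 2 * P.ℓ →
      ∑ i ∈ S, Q s (fl v i) ≤ S.card * Q (s + 1) v) ∧
    Mob.card + rem ≤ 2 * P.T + P.ℓ ∧ Mob2.card + rem ≤ P.T ∧
    Q rem v + ∑ j ∈ range (P.ℓ + 1), 2 * tau P.δ j v (Z j) + 2 * rem * P.b < 1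

/-- cops' turn, hitting phase -/
def HitC (c : Fin k → Cube n) (v : Cube n) : Prop :=
  ∃ (W W2 : Finset (Cube n)) (Mob Mob2 : Finset (Fin k)) (Z : ℕ → Finset (Cube n))
    (B : ℕ → Finset (Fin k)) (Q : ℕ → Cube n → ℝ) (rem : ℕ),
    CState P.G P.ℓ c v W Mob Z B ∧ P.G W2 ∧
    (∀ i, i ∉ Mob2 → ∀ w ∈ W2, 2 ≤ hammingDist (c i) w) ∧ Mob2 ⊆ Mob ∧
    (∀ s v, 0 ≤ Q s v) ∧ (∀ v ∈ W, v ∉ W2 → Q 0 v = 1) ∧
    (∀ s, ∀ v ∈ W, v ∉ W2 → ∀ S ⊆ nb W v, (nb W v).card ≤ S.card + 2 * P.ℓ →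
      ∑ i ∈ S, Q s (fl v i) ≤ S.card * Q (s + 1) v) ∧
    Mob.card + rem + 1 ≤ 2 * P.T + P.ℓ ∧ Mob2.card + rem + 1 ≤ P.T ∧
    Q rem v + ∑ j ∈ range P.ℓ, 2 * tau P.δ j v (Z j) + 2 * (rem + 1) * P.b < 1

/-- robber's turn, cool-down phase -/
def CoolR (c : Fin k → Cube n) (v : Cube n) (p : ℕ) : Prop :=
  ∃ (W : Finset (Cube n)) (Mob : Finset (Fin k)) (Z : ℕ → Finset (Cube n))
    (B : ℕ → Finset (Fin k)),
    RState P.G P.ℓ c v W Mob Z B ∧ Mob.card + p ≤ P.T + P.ℓ ∧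
    ∑ j ∈ range (P.ℓ + 1), coef p j * tau P.δ j v (Z j) + 4 * p * P.b < 1

/-- cops' turn, cool-down phase -/
def CoolC (c : Fin k → Cube n) (v : Cube n) (p : ℕ) : Prop :=
  ∃ (W : Finset (Cube n)) (Mob : Finset (Fin k)) (Z : ℕ → Finset (Cube n))
    (B : ℕ → Finset (Fin k)),
    CState P.G P.ℓ c v W Mob Z B ∧ Mob.card + p + 1 ≤ P.T + P.ℓ ∧
    ∑ j ∈ range P.ℓ, coef p j * tau P.δ j v (Z j) + 4 * (p + 1) * P.b < 1

def InvC (c : Fin k → Cube n) (v : Cube n) : Prop := P.HitC c v ∨ ∃ p, P.CoolC c v p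

def InvR (c : Fin k → Cube n) (v : Cube n) : Prop := P.HitR c v ∨ ∃ p, P.CoolR c v p

theorem cool_pos {c : Fin k → Cube n} {v : Cube n} {p : ℕ} (h : P.CoolR c v (p + 1)) :
    ∃ u, (hypercube n).Adj v u ∧ P.InvC c u := by
  obtain ⟨W, Mob, Z, B, hs, hM, hΦ⟩ := h
  obtain ⟨u, hu, h1, h2⟩ := hs.step P.hδ P.deg (coef (p + 1)) (one_le_coef (p + 1))
    (fun _ => 0) (fun _ => 0) le_rfl (4 * (p + 1 : ℕ) * P.b)
    (by have := P.hb0; positivity) (by intro S _ _; simp) (by simpa using hΦ)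
  refine ⟨u, hu, Or.inr ⟨p, W, Mob, _, _, h2, by omega, ?_⟩⟩
  have hc : ∀ j, coef (p + 1) (j + 1) = coef p j := by
    intro j; unfold coef; simp
  simp only [hc] at h1
  push_cast at h1
  linarith

theorem hit_out {c : Fin k → Cube n} {v : Cube n} (h : P.HitR c v) :
    (∃ u, (hypercube n).Adj v u ∧ P.InvC c u) := by
  obtain ⟨W, W2, Mob, Mob2, Z, B, Q, rem, hs, hG2, hsafe2, hMM, hQ0, hQ1, hQ2, hM, hM2, hΦ⟩ := h
  have hb0 := P.hb0
  have htau : ∀ j, 0 ≤ tau P.δ j v (Z j) := fun j => tau_nonneg P.hδ.le _ _ _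
  by_cases hv : v ∈ W2
  · -- switch to the cool-down phase
    obtain ⟨p, hp⟩ : ∃ p, P.ℓ = p + 1 := ⟨P.ℓ - 1, by have := P.hℓ; omega⟩
    have hcool : P.CoolR c v (p + 1) := by
      refine ⟨W2, Mob2, Z, B, ⟨hG2, hv, hsafe2, hs.far, hs.cardB, ?_⟩, by omega, ?_⟩
      · intro j hj i hi
        exact hs.trap j hj i (hMM hi)
      · have h1 : ∑ j ∈ range (P.ℓ + 1), coef (p + 1) j * tau P.δ j v (Z j) =
            ∑ j ∈ range (P.ℓ + 1), tau P.δ j v (Z j) := by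
          apply sum_congr rfl
          intro j hj
          rw [mem_range] at hj
          unfold coef
          rw [if_pos (by omega), one_mul]
        rw [h1]
        rw [← mul_sum] at hΦ
        have h2 := hQ0 rem v
        have h3 : (0 : ℝ) ≤ 2 * rem * P.b := by positivity
        have h4 := P.hb1
        have h5 : ((p + 1 : ℕ) : ℝ) = P.ℓ := by rw [hp]
        rw [h5]
        linarith
    exact P.cool_pos hcool
  · -- keep hitting
    have hrem : rem ≠ 0 := by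
      rintro rfl
      have h1 := hQ1 v hs.vW hv
      have h2 : 0 ≤ ∑ j ∈ range (P.ℓ + 1), 2 * tau P.δ j v (Z j) :=
        sum_nonneg fun j _ => mul_nonneg zero_le_two (htau j)
      simp only [Nat.cast_zero] at hΦ
      linarith
    obtain ⟨s, rfl⟩ := Nat.exists_eq_succ_of_ne_zero hrem
    obtain ⟨u, hu, h1, h2⟩ := hs.step P.hδ P.deg (fun _ => 2) (fun _ => one_le_two)
      (Q (s + 1)) (Q s) (hQ0 _ _) (2 * (s + 1 : ℕ) * P.b) (by positivity)
      (fun S hS hc => hQ2 s v hs.vW hv S hS hc) hΦ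
    refine ⟨u, hu, Or.inl ⟨W, W2, Mob, Mob2, _, _, Q, s, h2, hG2, hsafe2, hMM, hQ0, hQ1, hQ2,
      by omega, by omega, ?_⟩⟩
    push_cast at h1
    exact h1

theorem invR_step {c : Fin k → Cube n} {v : Cube n} (h : P.InvR c v) :
    (∃ u, (hypercube n).Adj v u ∧ P.InvC c u) := by
  rcases h with h | ⟨p, h⟩
  · exact P.hit_out h
  · rcases Nat.eq_zero_or_pos p with rfl | hp
    · apply P.hit_out
      obtain ⟨W, Mob, Z, B, hs, hM, hΦ⟩ := h
      obtain ⟨W2, hG2, -, hsafe2⟩ := P.map c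
      obtain ⟨Q, hQ0, hQ1, hQ2, hQT⟩ := P.pot W W2 hs.gW hG2
      refine ⟨W, W2, Mob, ∅, Z, B, Q, P.T, hs, hG2, fun i _ => hsafe2 i, by simp, hQ0, hQ1, hQ2,
        by omega, by simp, ?_⟩
      have hb0 := P.hb0
      have htau : ∀ j, 0 ≤ tau P.δ j v (Z j) := fun j => tau_nonneg P.hδ.le _ _ _
      -- the zeroth trap is avoided
      have hv0 : v ∉ Z 0 := by
        intro hmem
        have h1 := one_le_tau_zero P.hδ.le hmem
        have h2 : coef 0 0 * tau P.δ 0 v (Z 0) ≤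
            ∑ j ∈ range (P.ℓ + 1), coef 0 j * tau P.δ j v (Z j) :=
          single_le_sum (f := fun j => coef 0 j * tau P.δ j v (Z j))
            (fun j _ => mul_nonneg (zero_le_one.trans (one_le_coef 0 j)) (htau j))
            (mem_range.2 (Nat.succ_pos _))
        have h3 : coef 0 0 = 1 := by simp [coef]
        rw [h3, one_mul] at h2
        simp only [Nat.cast_zero, mul_zero, zero_mul, add_zero] at hΦ
        linarith
      have h0 : tau P.δ 0 v (Z 0) = 0 := by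
        unfold tau
        apply sum_eq_zero
        intro u hu
        simp only [wt]
        rw [if_neg]
        intro h
        rw [hammingDist_eq_zero] at h
        rw [← h] at hu
        exact hv0 hu
      rw [sum_range_succ'] at hΦ ⊢
      have h1 : ∀ j, coef 0 (j + 1) = 4 := by intro j; simp [coef]
      simp only [h1, h0, Nat.cast_zero, mul_zero, zero_mul, add_zero] at hΦ
      simp only [h0, mul_zero, add_zero]
      rw [← mul_sum] at hΦ ⊢
      have h2 := hQT v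
      have h3 := P.hb2
      linarith
    · obtain ⟨q, rfl⟩ := Nat.exists_eq_succ_of_ne_zero hp.ne'
      exact P.cool_pos h

theorem sum_new {a : ℕ → ℝ} {c : Fin k → Cube n} {v : Cube n} {Mob : Finset (Fin k)}
    {Z : ℕ → Finset (Cube n)} (ha : 0 ≤ a P.ℓ) (hM : Mob.card ≤ 2 * P.T + P.ℓ) :
    ∑ j ∈ range (P.ℓ + 1), a j * tau P.δ j v (if j < P.ℓ then Z j else trapSet c Mob) ≤
      ∑ j ∈ range P.ℓ, a j * tau P.δ j v (Z j) + a P.ℓ * P.b := by
  rw [sum_range_succ]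
  apply add_le_add
  · apply le_of_eq
    apply sum_congr rfl
    intro j hj
    rw [if_pos (mem_range.1 hj)]
  · rw [if_neg (lt_irrefl _)]
    exact mul_le_mul_of_nonneg_left (P.tau_trap c v Mob hM) ha

theorem invC_step {c c' : Fin k → Cube n} {v : Cube n} (h : P.InvC c v)
    (hm : LazyMove (hypercube n) c c') : P.InvR c' v := by
  classical
  obtain ⟨I, hI1, hI2, hI3⟩ := hm.exists_small
  rcases h with h | ⟨p, h⟩
  · left
    obtain ⟨W, W2, Mob, Mob2, Z, B, Q, rem, hs, hG2, hsafe2, hMM, hQ0, hQ1, hQ2, hM, hM2, hΦ⟩ := h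
    have hc1 := card_union_le Mob I
    have hc2 := card_union_le Mob2 I
    refine ⟨W, W2, Mob ∪ I, Mob2 ∪ I, _, _, Q, rem, hs.step hI1 hI2 hI3, hG2, ?_,
      union_subset_union_left hMM, hQ0, hQ1, hQ2, by omega, by omega, ?_⟩
    · intro i hi w hw
      rw [mem_union, not_or] at hi
      rw [hI2 i hi.2]
      exact hsafe2 i hi.1 w hw
    · have := P.sum_new (a := fun _ => 2) (c := c') (v := v) (Mob := Mob ∪ I) (Z := Z)
        zero_le_two (by omega)
      linarith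
  · right
    obtain ⟨W, Mob, Z, B, hs, hM, hΦ⟩ := h
    have hc1 := card_union_le Mob I
    refine ⟨p, W, Mob ∪ I, _, _, hs.step hI1 hI2 hI3, by omega, ?_⟩
    have := P.sum_new (a := coef p) (c := c') (v := v) (Mob := Mob ∪ I) (Z := Z)
      (zero_le_one.trans (one_le_coef p _)) (by omega)
    have h2 := coef_le p P.ℓ
    have h3 : coef p P.ℓ * P.b ≤ 4 * P.b := mul_le_mul_of_nonneg_right h2 P.hb0
    linarith

theorem invR_far {c : Fin k → Cube n} {v : Cube n} (h : P.InvR c v) (i : Fin k) : c i ≠ v := by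
  have hf : 1 ≤ hammingDist (c i) v := by
    rcases h with ⟨W, W2, Mob, Mob2, Z, B, Q, rem, hs, -⟩ | ⟨p, W, Mob, Z, B, hs, -⟩
    · exact hs.far i
    · exact hs.far i
  intro h
  rw [h, hammingDist_self] at hf
  omega

theorem invC_far {c : Fin k → Cube n} {v : Cube n} (h : P.InvC c v) (i : Fin k) : c i ≠ v := by
  have hf : 2 ≤ hammingDist (c i) v := by
    rcases h with ⟨W, W2, Mob, Mob2, Z, B, Q, rem, hs, -⟩ | ⟨p, W, Mob, Z, B, hs, -⟩
    · exact hs.far i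
    · exact hs.far i
  intro h
  rw [h, hammingDist_self] at hf
  omega

theorem not_copsWin_of_invC {c : Fin k → Cube n} {v : Cube n}
    (hw : CopsWin (hypercube n) c v) : ¬ P.InvC c v := by
  induction hw with
  | caught c r i h => exact fun hinv => P.invC_far hinv i h
  | capture c c' r hm i h => exact fun hinv => P.invR_far (P.invC_step hinv hm) i h
  | move c c' r hm h ih =>
    intro hinv
    obtain ⟨u, hu, hI⟩ := P.invR_step (P.invC_step hinv hm)
    exact ih u (Or.inr hu) hI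

/-- the robber escapes -/
theorem escape (hT : 1 ≤ P.T) (c : Fin k → Cube n) : ∃ v, ¬ CopsWin (hypercube n) c v := by
  obtain ⟨W, hG, ⟨v, hv⟩, hsafe⟩ := P.map c
  refine ⟨v, fun hw => P.not_copsWin_of_invC hw (Or.inr ⟨0, W, ∅, fun _ => ∅, fun _ => ∅, ?_, ?_, ?_⟩)⟩
  · refine ⟨hG, hv, fun i _ => hsafe i, fun i => hsafe i v hv, ?_, ?_⟩
    · intro j hj; simp; omega
    · intro j hj i hi; simp at hi
  · simp; omega
  · have h1 : ∀ j, tau P.δ j v (∅ : Finset (Cube n)) = 0 := by intro j; simp [tau]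
    simp only [h1, mul_zero, sum_const_zero]
    have h2 := P.hb2
    have h3 : (1 : ℝ) ≤ P.T := by exact_mod_cast hT
    have hb0 := P.hb0
    push_cast
    nlinarith

end Setup

end LazyCops
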