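import Pool.Agent.Helper848.Lazy.Core
import Pool.Agent.Helper848.Lazy.Pot
import Pool.Agent.Helper848.Lazy.Robber

open Finset Filter

namespace LazyCops

theorem card_ball_one {n : ℕ} (c : Cube n) :
    (univ.filter fun u : Cube n => hammingDist c u ≤ 1).card ≤ n + 1 := by
  classical
  let g : Option (Fin n) → Cube n := fun p => match p with
      | none => c
      | some i => fl c i
  have hsub : (univ.filter fun u : Cube n => hammingDist c u ≤ 1) ⊆ univ.image g := by
    intro u hu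
    simp only [mem_filter, mem_univ, true_and] at hu
    rw [mem_image]
    by_cases h0 : c = u
    · exact ⟨none, mem_univ _, h0⟩
    · obtain ⟨i, hi⟩ : ∃ i, c i ≠ u i := by
        by_contra hcon
        simp only [not_exists, not_not] at hcon
        exact h0 (funext hcon)
      have h1 := dist_fl_of_ne c u i hi
      have h4 : hammingDist (fl c i) u = 0 := by omega
      exact ⟨some i, mem_univ _, hammingDist_eq_zero.1 h4⟩
  calc _ ≤ (univ.image g).card := card_le_card hsub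
    _ ≤ (univ : Finset (Option (Fin n))).card := card_image_le
    _ = n + 1 := by
        rw [card_univ, Fintype.card_option, Fintype.card_fin]

/-- numerical estimate for the size of the trap potentials -/
theorem b_bound {n : ℕ} (hn : 1920 * 896 ^ 14 ≤ n) :
    16 * ((n ^ 2 : ℕ) : ℝ) * (((2 * n ^ 2 + 28 : ℕ) : ℝ) * ((n + 1 : ℕ) : ℝ) ^ 2 *
      (2 * √(((28 : ℕ) : ℝ) / (√n / 4 - 56))) ^ 28) ≤ 1 := by
  have hn1 : (1 : ℝ) ≤ n := by exact_mod_cast (by omega : 1 ≤ n)
  have hn0 : (0 : ℝ) < n := by linarith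
  have hbig : (1920 * 896 ^ 14 : ℝ) ≤ n := by exact_mod_cast hn
  have hsq : (448 : ℝ) ≤ √n := by
    apply Real.le_sqrt_of_sq_le
    refine le_trans ?_ hbig
    norm_num
  have hs0 : 0 < √(n : ℝ) := by linarith
  have hδ : √(n : ℝ) / 8 ≤ √n / 4 - 56 := by linarith
  have hδ0 : (0 : ℝ) < √n / 4 - 56 := by linarith
  have h1 : (2 * √(((28 : ℕ) : ℝ) / (√n / 4 - 56))) ^ 28 ≤ 896 ^ 14 / (n : ℝ) ^ 7 := by
    have h2 : (2 * √(((28 : ℕ) : ℝ) / (√n / 4 - 56))) ^ 28 =
        (4 * (28 / (√n / 4 - 56))) ^ 14 := by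
      have : (2 * √(((28 : ℕ) : ℝ) / (√n / 4 - 56))) ^ 28 =
        (4 * (√(((28 : ℕ) : ℝ) / (√n / 4 - 56))) ^ 2) ^ 14 := by ring
      rw [this, Real.sq_sqrt (by positivity)]
      norm_num
    rw [h2]
    have h3 : 4 * (28 / (√(n : ℝ) / 4 - 56)) ≤ 896 / √n := by
      rw [← mul_div_assoc, div_le_div_iff₀ hδ0 hs0]
      nlinarith
    calc (4 * (28 / (√(n : ℝ) / 4 - 56))) ^ 14 ≤ (896 / √n) ^ 14 := by
          gcongr
      _ = 896 ^ 14 / (√n ^ 2) ^ 7 := by rw [div_pow]; ring
      _ = 896 ^ 14 / (n : ℝ) ^ 7 := by rw [Real.sq_sqrt hn0.le]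
  have h4 : ((2 * n ^ 2 + 28 : ℕ) : ℝ) ≤ 30 * (n : ℝ) ^ 2 := by
    push_cast
    nlinarith
  have h5 : ((n + 1 : ℕ) : ℝ) ^ 2 ≤ 4 * (n : ℝ) ^ 2 := by
    push_cast
    nlinarith
  have h6 : 16 * ((n ^ 2 : ℕ) : ℝ) * (((2 * n ^ 2 + 28 : ℕ) : ℝ) * ((n + 1 : ℕ) : ℝ) ^ 2 *
      (2 * √(((28 : ℕ) : ℝ) / (√n / 4 - 56))) ^ 28)
      ≤ 16 * (n : ℝ) ^ 2 * ((30 * (n : ℝ) ^ 2) * (4 * (n : ℝ) ^ 2) * (896 ^ 14 / (n : ℝ) ^ 7)) := by
    have h7 : ((n ^ 2 : ℕ) : ℝ) = (n : ℝ) ^ 2 := by push_cast; ring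
    rw [h7]
    gcongr
  have h8 : 16 * (n : ℝ) ^ 2 * ((30 * (n : ℝ) ^ 2) * (4 * (n : ℝ) ^ 2) * (896 ^ 14 / (n : ℝ) ^ 7))
      = (1920 * 896 ^ 14) / (n : ℝ) := by
    field_simp
    norm_num
  rw [h8] at h6
  exact h6.trans (by rw [div_le_one hn0]; exact hbig)

theorem exists_lower : ∃ c : ℝ, 0 < c ∧ ∀ᶠ n : ℕ in atTop, ∀ k : ℕ,
    (k : ℝ) ≤ c * 2 ^ n / (n * √n) →
      ∀ c : Fin k → Cube n, ∃ r, ¬ CopsWin (hypercube n) c r := by
  classical
  obtain ⟨ε, c0, hε0, hε1, hc0, hev⟩ := exists_core 7168 (by norm_num)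
  refine ⟨c0 / 2, by positivity, ?_⟩
  filter_upwards [hev, eventually_ge_atTop (1920 * 896 ^ 14)] with n hn hbig k hk
  have hn1N : 1 ≤ n := by omega
  have hn1 : (1 : ℝ) ≤ n := by exact_mod_cast hn1N
  have hn0 : (0 : ℝ) < n := by linarith
  have hbigr : (1920 * 896 ^ 14 : ℝ) ≤ n := by exact_mod_cast hbig
  have hsq : (448 : ℝ) ≤ √n := by
    apply Real.le_sqrt_of_sq_le
    refine le_trans ?_ hbigr
    norm_num
  have hs0 : 0 < √(n : ℝ) := by linarith
  have hN : (0 : ℝ) < 2 ^ n := by positivity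
  set m0 : ℝ := ε * 2 ^ n / 2 with hm0
  set bb : ℝ := (((2 * n ^ 2 + 28 : ℕ) : ℝ) * ((n + 1 : ℕ) : ℝ) ^ 2 *
      (2 * √(((28 : ℕ) : ℝ) / (√n / 4 - 56))) ^ 28) with hbb
  have hbb0 : 0 ≤ bb := by
    rw [hbb]; positivity
  have hbb1 : 16 * ((n ^ 2 : ℕ) : ℝ) * bb ≤ 1 := b_bound hbig
  have hmap : ∀ c : Fin k → Cube n, ∃ W, Good m0 (√n / 4) 7168 W ∧ W.Nonempty ∧
      ∀ i, ∀ w ∈ W, 2 ≤ hammingDist (c i) w := by
    intro c
    set X : Finset (Cube n) := (univ : Finset (Fin k)).biUnion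
      fun i => univ.filter fun u : Cube n => hammingDist (c i) u ≤ 1 with hX
    have hXc : X.card ≤ k * (n + 1) := by
      have := card_biUnion_le_card_mul (univ : Finset (Fin k))
        (fun i => univ.filter fun u : Cube n => hammingDist (c i) u ≤ 1) (n + 1)
        (fun i _ => card_ball_one (c i))
      simpa using this
    have hXr : (X.card : ℝ) * √n ≤ c0 * 2 ^ n := by
      have h1 : (X.card : ℝ) ≤ k * (n + 1) := by exact_mod_cast hXc
      have h2 : (k : ℝ) * (n * √n) ≤ c0 / 2 * 2 ^ n := by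
        rwa [le_div_iff₀ (by positivity)] at hk
      have hk0 : (0 : ℝ) ≤ k := by positivity
      calc (X.card : ℝ) * √n ≤ k * (n + 1) * √n := by gcongr
        _ ≤ k * (n + n) * √n := by gcongr
        _ = 2 * (k * (n * √n)) := by ring
        _ ≤ 2 * (c0 / 2 * 2 ^ n) := by gcongr
        _ = _ := by ring
    obtain ⟨W, hW, hdis⟩ := hn X hXr
    refine ⟨W, hW, ?_, ?_⟩
    · by_contra hempty
      rw [not_nonempty_iff_eq_empty] at hempty
      have h1 := hW.compl
      rw [hempty, sdiff_empty, card_univ] at h1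
      simp only [Fintype.card_pi, Fintype.card_bool, prod_const, card_univ, Fintype.card_fin,
        Nat.cast_pow, Nat.cast_ofNat] at h1
      have h2 : m0 ≤ 2 ^ n / 2 := by
        rw [hm0]
        have : ε * 2 ^ n ≤ 1 * 2 ^ n := by gcongr
        linarith
      linarith
    · intro i w hw
      by_contra hcon
      refine (Finset.disjoint_left.1 hdis hw) ?_
      rw [hX, mem_biUnion]
      refine ⟨i, mem_univ _, ?_⟩
      simp only [mem_filter, mem_univ, true_and]
      omega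
  have hpot : ∀ W W' : Finset (Cube n), Good m0 (√n / 4) 7168 W → Good m0 (√n / 4) 7168 W' →
      ∃ Q : ℕ → Cube n → ℝ, (∀ s v, 0 ≤ Q s v) ∧ (∀ v ∈ W, v ∉ W' → Q 0 v = 1) ∧
      (∀ s, ∀ v ∈ W, v ∉ W' → ∀ S ⊆ nb W v, (nb W v).card ≤ S.card + 2 * 28 →
        ∑ i ∈ S, Q s (fl v i) ≤ S.card * Q (s + 1) v) ∧ ∀ v, Q (n ^ 2) v ≤ 1 / 4 := by
    intro W W' hW hW'
    obtain ⟨Q, h1, h2, h3, h4⟩ := Pot.exists_potential (n := n) (r := 2 * 28) (T := n ^ 2)
      W (W \ W') Finset.sdiff_subset 7168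
      (by
        intro v hv
        have h1 := hW.deg v hv
        have h2 : ((2 * 28 : ℕ) : ℝ) < ((nb W v).card : ℝ) := by
          refine lt_of_lt_of_le ?_ h1
          push_cast
          linarith
        exact_mod_cast h2)
      (by
        intro f hf0 hfZ
        apply hW.fk f hf0
        · intro x hx
          apply hfZ
          intro hmem
          exact hx (Finset.mem_sdiff.1 hmem).1
        · refine le_trans ?_ hW'.compl
          have : (univ.filter fun x => f x ≠ 0) ⊆ univ \ W' := by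
            intro x hx
            rw [mem_filter] at hx
            rw [Finset.mem_sdiff]
            refine ⟨mem_univ _, fun hxW' => hx.2 (hfZ x ?_)⟩
            intro hmem
            exact (Finset.mem_sdiff.1 hmem).2 hxW'
          exact_mod_cast card_le_card this)
      (by norm_num) (by norm_num) (by omega)
      (by
        have h1 : (7168 * ((n ^ 2 : ℕ) : ℝ) / (8 * n)) = 896 * n := by
          push_cast
          field_simp
          norm_num
        rw [h1]
        have h2 : (2 : ℝ) ^ n ≤ Real.exp n := by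
          have : (2 : ℝ) ≤ Real.exp 1 := by
            have := Real.add_one_le_exp (1 : ℝ)
            linarith
          calc (2 : ℝ) ^ n ≤ (Real.exp 1) ^ n := by gcongr
            _ = Real.exp n := by rw [← Real.exp_nat_mul, mul_one]
        have h3 : Real.exp (-(896 * n)) * 2 ^ n ≤ Real.exp (-(895 * (n : ℝ))) := by
          calc Real.exp (-(896 * n)) * 2 ^ n ≤ Real.exp (-(896 * n)) * Real.exp n := by gcongr
            _ = Real.exp (-(895 * (n : ℝ))) := by rw [← Real.exp_add]; ring_nf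
        refine h3.trans ?_
        rw [Real.exp_neg, one_div]
        apply inv_anti₀ (by norm_num)
        have := Real.add_one_le_exp (895 * (n : ℝ))
        linarith)
    refine ⟨Q, h1, ?_, ?_, h4⟩
    · intro v hv hv'
      exact h2 v (Finset.mem_sdiff.2 ⟨hv, hv'⟩)
    · intro s v hv hv' S hS hc
      exact h3 s v (Finset.mem_sdiff.2 ⟨hv, hv'⟩) S hS hc
  let P : Setup n k :=
    { G := Good m0 (√n / 4) 7168
      ℓ := 28
      T := n ^ 2
      δ := √n / 4 - 56
      b := bb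
      hℓ := by norm_num
      hδ := by linarith
      hℓδ := by push_cast; linarith
      hb0 := hbb0
      hb := le_rfl
      hb1 := by
        have h1 : (14 : ℝ) ≤ ((n ^ 2 : ℕ) : ℝ) := by
          push_cast
          nlinarith
        push_cast at *
        nlinarith
      hb2 := hbb1
      map := hmap
      deg := by
        intro W hW v hv
        have := hW.deg v hv
        push_cast
        linarith
      pot := hpot }
  intro c
  exact P.escape (show 1 ≤ n ^ 2 from Nat.one_le_pow _ _ hn1N) c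

end LazyCops
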