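import Pool.Agent.Helper848.Lazy.Defs

open Finset

namespace LazyCops

variable {n : ℕ}

@[simp] theorem fl_self (x : Cube n) (i : Fin n) : fl x i i = !x i := by
  simp [fl]

theorem fl_ne (x : Cube n) {i j : Fin n} (h : j ≠ i) : fl x i j = x j := by
  simp [fl, h]

@[simp] theorem fl_fl (x : Cube n) (i : Fin n) : fl (fl x i) i = x := by
  ext j
  by_cases h : j = i
  · subst h; simp
  · rw [fl_ne _ h, fl_ne _ h]

theorem fl_ne_self (x : Cube n) (i : Fin n) : fl x i ≠ x := by
  intro h
  have := congrFun h i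
  simp at this

theorem fl_inj (x : Cube n) {i j : Fin n} (h : fl x i = fl x j) : i = j := by
  by_contra hne
  have := congrFun h i
  rw [fl_self, fl_ne x hne] at this
  simp at this

theorem dist_fl_of_ne (v u : Cube n) (i : Fin n) (h : v i ≠ u i) :
    hammingDist (fl v i) u + 1 = hammingDist v u := by
  unfold hammingDist
  have : (univ.filter fun j => v j ≠ u j) = insert i (univ.filter fun j => fl v i j ≠ u j) := by
    ext j
    simp only [mem_filter, mem_univ, true_and, mem_insert]
    by_cases hj : j = i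
    · subst hj; simp [h]
    · rw [fl_ne _ hj]; simp [hj]
  rw [this, card_insert_of_notMem]
  simp only [mem_filter, mem_univ, true_and, fl_self, not_not]
  cases hv : v i <;> cases hu : u i <;> simp_all

theorem dist_fl_of_eq (v u : Cube n) (i : Fin n) (h : v i = u i) :
    hammingDist (fl v i) u = hammingDist v u + 1 := by
  have := dist_fl_of_ne (fl v i) u i (by rw [fl_self, h]; cases u i <;> simp)
  rw [fl_fl] at this
  exact this.symm

theorem dist_fl_self (v : Cube n) (i : Fin n) : hammingDist v (fl v i) = 1 := by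
  rw [hammingDist_comm, dist_fl_of_eq v v i rfl]; simp

theorem adj_fl (v : Cube n) (i : Fin n) : (hypercube n).Adj v (fl v i) :=
  dist_fl_self v i

theorem exists_fl_of_adj {v u : Cube n} (h : (hypercube n).Adj v u) : ∃ i, u = fl v i := by
  have h1 : hammingDist v u = 1 := h
  unfold hammingDist at h1
  rw [card_eq_one] at h1
  obtain ⟨i, hi⟩ := h1
  refine ⟨i, ?_⟩
  ext j
  have hj := Finset.ext_iff.1 hi j
  simp only [mem_filter, mem_univ, true_and, mem_singleton] at hj
  by_cases hji : j = i
  · subst hji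
    have : v j ≠ u j := hj.2 rfl
    rw [fl_self]
    cases hv : v j <;> cases hu : u j <;> simp_all
  · rw [fl_ne _ hji]
    have : ¬ v j ≠ u j := fun h => hji (hj.1 h)
    simpa using (not_not.1 this).symm

theorem wt_nonneg {δ : ℝ} (hδ : 0 ≤ δ) : ∀ j d, 0 ≤ wt δ j d
  | 0, d => by simp only [wt]; split_ifs <;> norm_num
  | j + 1, d => by
      simp only [wt]
      have h1 := wt_nonneg hδ j (d - 1)
      have h2 := wt_nonneg hδ j (d + 1)
      positivity

theorem wt_eq_zero {δ : ℝ} : ∀ j d, j < d → wt δ j d = 0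
  | 0, d, h => by simp only [wt]; rw [if_neg (by omega)]
  | j + 1, d, h => by
      simp only [wt]
      rw [wt_eq_zero j (d - 1) (by omega), wt_eq_zero j (d + 1) (by omega)]
      simp

theorem wt_le {δ : ℝ} {ℓ : ℕ} (hδ : (ℓ : ℝ) ≤ δ) (hδ0 : 0 < δ) :
    ∀ j d, j ≤ ℓ → wt δ j d ≤ (2 * √(ℓ / δ)) ^ j * √(ℓ / δ) ^ d
  | 0, d, _ => by
      simp only [wt]
      split_ifs with h
      · subst h; simp
      · positivity
  | j + 1, d, hj => by
      by_cases hd : j + 1 < d
      · rw [wt_eq_zero _ _ hd]; positivity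
      have hq0 : (0 : ℝ) ≤ √(ℓ / δ) := Real.sqrt_nonneg _
      have hqq : √((ℓ : ℝ) / δ) ^ 2 = ℓ / δ := Real.sq_sqrt (by positivity)
      have h1 := wt_le hδ hδ0 j (d - 1) (by omega)
      have h2 := wt_le hδ hδ0 j (d + 1) (by omega)
      simp only [wt]
      set q := √((ℓ : ℝ) / δ) with hq
      have hA : (0 : ℝ) ≤ (2 * q) ^ j := by positivity
      have key : (d : ℝ) / δ * wt δ j (d - 1) ≤ (2 * q) ^ j * q ^ (d + 1) := by
        rcases Nat.eq_zero_or_pos d with hd0 | hd0
        · subst hd0; simp; positivity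
        · have hdl : (d : ℝ) / δ ≤ q ^ 2 := by
            rw [hqq]
            have : (d : ℝ) ≤ ℓ := by exact_mod_cast (by omega : d ≤ ℓ)
            gcongr
          calc (d : ℝ) / δ * wt δ j (d - 1) ≤ q ^ 2 * ((2 * q) ^ j * q ^ (d - 1)) := by
                gcongr
                exact wt_nonneg hδ0.le _ _
            _ = (2 * q) ^ j * q ^ (d + 1) := by
                have : d + 1 = 2 + (d - 1) := by omega
                rw [this, pow_add]; ring
      calc (d : ℝ) / δ * wt δ j (d - 1) + wt δ j (d + 1)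
          ≤ (2 * q) ^ j * q ^ (d + 1) + (2 * q) ^ j * q ^ (d + 1) := add_le_add key h2
        _ = (2 * q) ^ (j + 1) * q ^ d := by ring

theorem wt_avg {δ : ℝ} (hδ0 : 0 < δ) (v u : Cube n) (j : ℕ) (S : Finset (Fin n))
    (hS : δ ≤ S.card) :
    ∑ i ∈ S, wt δ j (hammingDist (fl v i) u) ≤ S.card * wt δ (j + 1) (hammingDist v u) := by
  have h1 : ∀ i ∈ S, wt δ j (hammingDist (fl v i) u) =
      (if v i ≠ u i then wt δ j (hammingDist v u - 1) else 0) +
        (if v i ≠ u i then 0 else wt δ j (hammingDist v u + 1)) := by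
    intro i _
    by_cases h : v i ≠ u i
    · have := dist_fl_of_ne v u i h
      rw [if_pos h, if_pos h, ← this]; simp
    · rw [if_neg h, if_neg h, dist_fl_of_eq v u i (not_not.1 h)]; simp
  rw [sum_congr rfl h1, sum_add_distrib]
  have hA : ∑ i ∈ S, (if v i ≠ u i then wt δ j (hammingDist v u - 1) else 0) ≤
      (hammingDist v u : ℝ) * wt δ j (hammingDist v u - 1) := by
    rw [← sum_filter, sum_const, nsmul_eq_mul]
    have : (S.filter fun i => v i ≠ u i).card ≤ hammingDist v u := by
      unfold hammingDist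
      exact card_le_card (filter_subset_filter _ (subset_univ _))
    have h3 : ((S.filter fun i => v i ≠ u i).card : ℝ) ≤ hammingDist v u := by exact_mod_cast this
    exact mul_le_mul_of_nonneg_right h3 (wt_nonneg hδ0.le _ _)
  have hB : ∑ i ∈ S, (if v i ≠ u i then 0 else wt δ j (hammingDist v u + 1)) ≤
      (S.card : ℝ) * wt δ j (hammingDist v u + 1) := by
    calc _ ≤ ∑ i ∈ S, wt δ j (hammingDist v u + 1) := by
          apply sum_le_sum
          intro i _
          split_ifs
          · exact wt_nonneg hδ0.le _ _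
          · exact le_rfl
      _ = _ := by rw [sum_const, nsmul_eq_mul]
  have hC : (hammingDist v u : ℝ) * wt δ j (hammingDist v u - 1) ≤
      (S.card : ℝ) * ((hammingDist v u : ℝ) / δ * wt δ j (hammingDist v u - 1)) := by
    have hw := wt_nonneg hδ0.le j (hammingDist v u - 1)
    have : (hammingDist v u : ℝ) ≤ S.card * ((hammingDist v u : ℝ) / δ) := by
      calc (hammingDist v u : ℝ) = δ * ((hammingDist v u : ℝ) / δ) := by field_simp
        _ ≤ _ := by gcongr
    calc _ ≤ (S.card * ((hammingDist v u : ℝ) / δ)) * wt δ j (hammingDist v u - 1) := by gcongr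
      _ = _ := by ring
  simp only [wt]
  rw [mul_add]
  linarith

/-- trap potential -/
noncomputable def tau (δ : ℝ) (j : ℕ) (v : Cube n) (Z : Finset (Cube n)) : ℝ :=
  ∑ u ∈ Z, wt δ j (hammingDist v u)

theorem tau_nonneg {δ : ℝ} (hδ : 0 ≤ δ) (j : ℕ) (v : Cube n) (Z : Finset (Cube n)) :
    0 ≤ tau δ j v Z := sum_nonneg fun _ _ => wt_nonneg hδ _ _

theorem one_le_tau_zero {δ : ℝ} (hδ : 0 ≤ δ) {v : Cube n} {Z : Finset (Cube n)} (h : v ∈ Z) :
    1 ≤ tau δ 0 v Z := by
  unfold tau
  calc (1 : ℝ) = wt δ 0 (hammingDist v v) := by simp [wt]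
    _ ≤ _ := single_le_sum (f := fun u => wt δ 0 (hammingDist v u))
        (fun _ _ => wt_nonneg hδ _ _) h

theorem tau_avg {δ : ℝ} (hδ0 : 0 < δ) (v : Cube n) (Z : Finset (Cube n)) (j : ℕ)
    (S : Finset (Fin n)) (hS : δ ≤ S.card) :
    ∑ i ∈ S, tau δ j (fl v i) Z ≤ S.card * tau δ (j + 1) v Z := by
  unfold tau
  rw [sum_comm, mul_sum]
  exact sum_le_sum fun u _ => wt_avg hδ0 v u j S hS

theorem tau_le {δ : ℝ} {ℓ : ℕ} (hδ : (ℓ : ℝ) ≤ δ) (hδ0 : 0 < δ) (v : Cube n)
    (Z : Finset (Cube n)) : tau δ ℓ v Z ≤ Z.card * (2 * √(ℓ / δ)) ^ ℓ := by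
  unfold tau
  rw [← nsmul_eq_mul, ← sum_const]
  apply sum_le_sum
  intro u _
  refine (wt_le hδ hδ0 ℓ _ le_rfl).trans ?_
  have hq1 : √((ℓ : ℝ) / δ) ≤ 1 := by
    rw [Real.sqrt_le_one]
    · rw [div_le_one hδ0]; exact hδ
  have : √((ℓ : ℝ) / δ) ^ (hammingDist v u) ≤ 1 := pow_le_one₀ (Real.sqrt_nonneg _) hq1
  calc _ ≤ (2 * √((ℓ : ℝ) / δ)) ^ ℓ * 1 := by gcongr
    _ = _ := by ring

/-- balls of radius two are small -/
theorem card_ball_two (c : Cube n) :
    (univ.filter fun u : Cube n => hammingDist c u ≤ 2).card ≤ (n + 1) ^ 2 := by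
  classical
  let g : Option (Fin n) × Option (Fin n) → Cube n := fun p =>
    let y := match p.1 with
      | none => c
      | some i => fl c i
    match p.2 with
      | none => y
      | some j => fl y j
  have hsub : (univ.filter fun u : Cube n => hammingDist c u ≤ 2) ⊆ univ.image g := by
    intro u hu
    simp only [mem_filter, mem_univ, true_and] at hu
    rw [mem_image]
    by_cases h0 : c = u
    · exact ⟨(none, none), mem_univ _, h0⟩
    · obtain ⟨i, hi⟩ : ∃ i, c i ≠ u i := by
        by_contra hcon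
        simp only [not_exists, not_not] at hcon
        exact h0 (funext hcon)
      have h1 := dist_fl_of_ne c u i hi
      by_cases h2 : fl c i = u
      · exact ⟨(some i, none), mem_univ _, h2⟩
      · obtain ⟨j, hj⟩ : ∃ j, fl c i j ≠ u j := by
          by_contra hcon
          simp only [not_exists, not_not] at hcon
          exact h2 (funext hcon)
        have h3 := dist_fl_of_ne (fl c i) u j hj
        have h4 : hammingDist (fl (fl c i) j) u = 0 := by omega
        exact ⟨(some i, some j), mem_univ _, hammingDist_eq_zero.1 h4⟩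
  calc _ ≤ (univ.image g).card := card_le_card hsub
    _ ≤ (univ : Finset (Option (Fin n) × Option (Fin n))).card := card_image_le
    _ = (n + 1) ^ 2 := by
        rw [card_univ, Fintype.card_prod, Fintype.card_option, Fintype.card_fin]; ring

/-- the set of vertices within distance two of the cops in `Mob` -/
def trapSet {k : ℕ} (c : Fin k → Cube n) (Mob : Finset (Fin k)) : Finset (Cube n) :=
  Mob.biUnion fun i => univ.filter fun u : Cube n => hammingDist (c i) u ≤ 2

theorem card_trapSet {k : ℕ} (c : Fin k → Cube n) (Mob : Finset (Fin k)) :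
    (trapSet c Mob).card ≤ Mob.card * (n + 1) ^ 2 :=
  card_biUnion_le_card_mul _ _ _ fun i _ => card_ball_two (c i)

/-- a cop not on `v` blocks at most two neighbours of `v` -/
theorem card_blocked (c v : Cube n) (h : 1 ≤ hammingDist c v) :
    (univ.filter fun i : Fin n => hammingDist c (fl v i) ≤ 1).card ≤ 2 := by
  rw [hammingDist_comm] at h
  by_cases hd : hammingDist v c ≤ 2
  · refine le_trans (card_le_card (t := univ.filter fun i => v i ≠ c i) ?_) hd
    intro i hi
    simp only [mem_filter, mem_univ, true_and] at hi ⊢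
    intro heq
    have := dist_fl_of_eq v c i heq
    rw [hammingDist_comm] at hi
    omega
  · have : (univ.filter fun i : Fin n => hammingDist c (fl v i) ≤ 1) = ∅ := by
      apply filter_eq_empty_iff.2
      intro i _ hi
      rw [hammingDist_comm] at hi
      by_cases hh : v i ≠ c i
      · have := dist_fl_of_ne v c i hh; omega
      · have := dist_fl_of_eq v c i (not_not.1 hh); omega
    rw [this]; simp

end LazyCops
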