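import Pool.Agent.Helper848.Lazy.Defs

namespace LazyCops

namespace Up

open Finset


/-! ## Levels and syndromes -/

/-- number of true coordinates -/
def lev {n : ℕ} (x : Cube n) : ℕ := (univ.filter (fun i => x i = true)).card

lemma lev_le {n : ℕ} (x : Cube n) : lev x ≤ n := by
  unfold lev
  calc (univ.filter (fun i => x i = true)).card ≤ (univ : Finset (Fin n)).card :=
        card_filter_le _ _
    _ = n := by simp

lemma lev_le_add {n : ℕ} (x y : Cube n) : lev y ≤ lev x + hammingDist x y := by
  unfold lev hammingDist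
  calc (univ.filter (fun i => y i = true)).card
      ≤ (univ.filter (fun i => x i = true) ∪ univ.filter (fun i => x i ≠ y i)).card := by
        apply card_le_card
        intro i hi
        simp only [mem_filter, mem_univ, true_and, mem_union] at hi ⊢
        by_cases h : x i = true
        · exact Or.inl h
        · right
          rw [hi]; exact h
    _ ≤ _ := card_union_le _ _

lemma lev_eq_top {n : ℕ} (x : Cube n) (h : lev x = n) : x = fun _ => true := by
  have h1 : univ.filter (fun i => x i = true) = univ := by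
    apply eq_univ_of_card
    rw [Fintype.card_fin]; exact h
  funext i
  have : i ∈ univ.filter (fun i => x i = true) := by rw [h1]; exact mem_univ i
  simpa using this

lemma adj_fl {n : ℕ} (x : Cube n) (i : Fin n) : (hypercube n).Adj x (fl x i) := by
  change hammingDist x (fl x i) = 1
  unfold hammingDist
  rw [card_eq_one]
  refine ⟨i, ?_⟩
  ext j
  rw [mem_filter, mem_singleton]
  constructor
  · rintro ⟨-, h⟩
    by_contra hj
    apply h
    unfold fl
    rw [Function.update_of_ne hj]
  · rintro rfl
    refine ⟨mem_univ _, ?_⟩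
    unfold fl
    rw [Function.update_self]
    cases x j <;> simp

lemma card_lev {n : ℕ} (j : ℕ) :
    (univ.filter (fun y : Cube n => lev y = j)).card ≤ n.choose (n / 2) := by
  calc (univ.filter (fun y : Cube n => lev y = j)).card
      ≤ (powersetCard j (univ : Finset (Fin n))).card := by
        apply card_le_card_of_injOn (fun y => univ.filter (fun i => y i = true))
        · intro y hy
          simp only [coe_filter, mem_univ, true_and, Set.mem_ofPred_eq] at hy
          simp only [mem_coe, mem_powersetCard, subset_univ, true_and]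
          exact hy
        · intro y _ z _ hyz
          funext i
          have h1 : i ∈ univ.filter (fun i => y i = true) ↔ i ∈ univ.filter (fun i => z i = true) := by
            have := hyz
            simp only at this
            rw [this]
          simp only [mem_filter, mem_univ, true_and] at h1
          cases hy : y i <;> cases hz : z i <;> simp_all
    _ = n.choose j := by rw [card_powersetCard, card_univ, Fintype.card_fin]
    _ ≤ _ := Nat.choose_le_middle _ _

/-- syndrome -/
def syn {n r : ℕ} (h : Fin n → (Fin r → ZMod 2)) (x : Cube n) : Fin r → ZMod 2 :=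
  ∑ i, if x i = true then h i else 0

lemma syn_fl {n r : ℕ} (h : Fin n → (Fin r → ZMod 2)) (x : Cube n) (i : Fin n) :
    syn h (fl x i) = syn h x + h i := by
  unfold syn
  rw [← add_sum_erase univ _ (mem_univ i), ← add_sum_erase univ _ (mem_univ i)]
  have h1 : ∑ j ∈ univ.erase i, (if fl x i j = true then h j else 0)
      = ∑ j ∈ univ.erase i, (if x j = true then h j else 0) := by
    apply sum_congr rfl
    intro j hj
    have : fl x i j = x j := by
      unfold fl
      rw [Function.update_of_ne (ne_of_mem_erase hj)]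
    rw [this]
  rw [h1]
  have h2 : fl x i i = !x i := by unfold fl; rw [Function.update_self]
  have h3 : h i + h i = 0 := by
    funext k
    exact CharTwo.add_self_eq_zero (h i k)
  rw [h2]
  cases hx : x i
  · simp only [Bool.not_false, if_true, Bool.false_eq_true, if_false]
    abel
  · simp only [Bool.not_true, if_true, Bool.false_eq_true, if_false]
    rw [add_assoc, add_comm _ (h i), ← add_assoc, h3]

lemma exists_h {n r : ℕ} (hr : 2 ^ r ≤ n + 1) : ∃ h : Fin n → (Fin r → ZMod 2),
    ∀ g : Fin r → ZMod 2, g ≠ 0 → ∃ i, h i = g := by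
  classical
  have hcard : Fintype.card {g : Fin r → ZMod 2 // g ≠ 0} ≤ Fintype.card (Fin n) := by
    rw [Fintype.card_subtype_compl, Fintype.card_fin]
    simp only [Fintype.card_pi, ZMod.card, prod_const, card_univ, Fintype.card_fin,
      Fintype.card_unique]
    omega
  obtain ⟨e⟩ := Function.Embedding.nonempty_of_card_le hcard
  refine ⟨Function.extend e Subtype.val 0, fun g hg => ⟨e ⟨g, hg⟩, ?_⟩⟩
  rw [e.injective.extend_apply]

/-- small dominating sets of the layers -/
lemma exists_dom {n r : ℕ} (hr : 2 ^ r ≤ n + 1) (m : ℕ) :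
    ∃ S : Finset (Cube n), 2 ^ r * S.card ≤ 3 * n.choose (n / 2) ∧
      ∀ x : Cube n, lev x = m → ∃ y ∈ S, y = x ∨ (hypercube n).Adj y x := by
  classical
  obtain ⟨h, hh⟩ := exists_h hr
  set U : Finset (Cube n) := univ.filter (fun y => m ≤ lev y + 1 ∧ lev y ≤ m + 1) with hU
  have hUc : U.card ≤ 3 * n.choose (n / 2) := by
    have hsub : U ⊆ (univ.filter (fun y : Cube n => lev y = m - 1)
        ∪ univ.filter (fun y : Cube n => lev y = m)) ∪ univ.filter (fun y : Cube n => lev y = m + 1) := by
      intro y hy
      simp only [hU, mem_filter, mem_univ, true_and] at hy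
      simp only [mem_union, mem_filter, mem_univ, true_and]
      omega
    calc U.card ≤ _ := card_le_card hsub
      _ ≤ _ := card_union_le _ _
      _ ≤ ((univ.filter (fun y : Cube n => lev y = m - 1)).card
            + (univ.filter (fun y : Cube n => lev y = m)).card)
            + (univ.filter (fun y : Cube n => lev y = m + 1)).card :=
          Nat.add_le_add_right (card_union_le _ _) _
      _ ≤ (n.choose (n / 2) + n.choose (n / 2)) + n.choose (n / 2) :=
          add_le_add (add_le_add (card_lev _) (card_lev _)) (card_lev _)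
      _ = _ := by ring
  obtain ⟨s0, -, hs0⟩ := Finset.exists_card_fiber_le_of_card_le_nsmul (M := ℚ)
    (s := U) (t := (univ : Finset (Fin r → ZMod 2))) (f := syn h)
    (b := (3 * n.choose (n / 2) : ℚ) / 2 ^ r) univ_nonempty (by
      rw [card_univ]
      simp only [Fintype.card_pi, ZMod.card, prod_const, card_univ, Fintype.card_fin]
      rw [nsmul_eq_mul]
      push_cast
      rw [mul_div_cancel₀ _ (by positivity)]
      exact_mod_cast hUc)
  refine ⟨U.filter (fun x => syn h x = s0), ?_, ?_⟩
  · rw [le_div_iff₀ (by positivity)] at hs0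
    have : ((U.filter (fun x => syn h x = s0)).card * 2 ^ r : ℚ) ≤ ((3 * n.choose (n / 2) : ℕ) : ℚ) := by
      push_cast
      exact hs0
    have h2 : (U.filter (fun x => syn h x = s0)).card * 2 ^ r ≤ 3 * n.choose (n / 2) := by
      exact_mod_cast this
    rw [mul_comm]; exact h2
  · intro x hx
    by_cases hs : syn h x = s0
    · refine ⟨x, ?_, Or.inl rfl⟩
      simp only [hU, mem_filter, mem_univ, true_and]
      exact ⟨⟨by omega, by omega⟩, hs⟩
    · obtain ⟨i, hi⟩ := hh (s0 - syn h x) (sub_ne_zero.mpr (Ne.symm hs))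
      have hadj := adj_fl x i
      have hd : hammingDist x (fl x i) = 1 := hadj
      have l1 := lev_le_add x (fl x i)
      have l2 := lev_le_add (fl x i) x
      rw [hammingDist_comm] at l2
      refine ⟨fl x i, ?_, Or.inr hadj.symm⟩
      simp only [hU, mem_filter, mem_univ, true_and]
      refine ⟨⟨by omega, by omega⟩, ?_⟩
      rw [syn_fl, hi]; abel

/-! ## The game -/

lemma win_of_dom {n k : ℕ} {c : Fin k → Cube n} {T : Finset (Fin k)} {r : Cube n}
    (h : ∃ i ∈ T, c i = r ∨ (hypercube n).Adj (c i) r) : CopsWin (hypercube n) c r := by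
  obtain ⟨i, -, h | h⟩ := h
  · exact CopsWin.caught c r i h
  · exact CopsWin.capture c (Function.update c i r) r (Or.inr ⟨i, r, h, rfl⟩) i (by simp)

lemma closer {n : ℕ} {x y : Cube n} (h : hammingDist x y ≠ 0) :
    ∃ z : Cube n, (hypercube n).Adj x z ∧ hammingDist z y + 1 = hammingDist x y := by
  classical
  have hne : x ≠ y := fun e => h (by rw [e]; exact hammingDist_self y)
  obtain ⟨j, hj⟩ := Function.ne_iff.mp hne
  refine ⟨fl x j, adj_fl x j, ?_⟩
  unfold hammingDist
  have : univ.filter (fun i => fl x j i ≠ y i) = (univ.filter (fun i => x i ≠ y i)).erase j := by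
    ext i
    simp only [mem_filter, mem_univ, true_and, mem_erase]
    by_cases hij : i = j
    · subst hij
      simp only [fl, Function.update_self, ne_eq, not_true_eq_false, false_and, iff_false, not_not]
      cases hx : x i <;> cases hy : y i <;> simp_all
    · simp only [fl, Function.update_of_ne hij]
      tauto
  rw [this, card_erase_of_mem (by simp [hj])]
  have : 0 < (univ.filter (fun i => x i ≠ y i)).card := card_pos.mpr ⟨j, by simp [hj]⟩
  omega

lemma game {n K : ℕ} (S : ℕ → Finset (Cube n)) (hS : ∀ m, (S m).card ≤ K)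
    (hdom : ∀ m (x : Cube n), lev x = m → ∃ y ∈ S m, y = x ∨ (hypercube n).Adj y x) :
    ∀ (m : ℕ) (c : Fin (2 * K) → Cube n) (T : Finset (Fin (2 * K))), T.card ≤ K →
      (∀ x : Cube n, lev x = m → ∃ i ∈ T, c i = x ∨ (hypercube n).Adj (c i) x) →
      ∀ r : Cube n, lev r < m → CopsWin (hypercube n) c r := by
  classical
  intro m
  induction m with
  | zero => intro c T _ _ r hr; exact absurd hr (Nat.not_lt_zero _)
  | succ m ih =>
    intro c T hT hTd
    have hTc : (S m).card ≤ (Tᶜ).card := by
      rw [card_compl, Fintype.card_fin]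
      have := hS m
      omega
    obtain ⟨T', hT's, hT'c⟩ := exists_subset_card_eq hTc
    have hdis : ∀ i ∈ T', i ∉ T := fun i hi => by
      have := hT's hi
      rwa [mem_compl] at this
    let e : T' ≃ S m := Finset.equivOfCardEq hT'c
    let g : Fin (2 * K) → Cube n := fun i => if h : i ∈ T' then (e ⟨i, h⟩ : Cube n) else c i
    have hg : ∀ y ∈ S m, ∃ i ∈ T', g i = y := by
      intro y hy
      refine ⟨(e.symm ⟨y, hy⟩ : T'), (e.symm ⟨y, hy⟩).2, ?_⟩
      simp only [g]
      rw [dif_pos (e.symm ⟨y, hy⟩).2]
      simp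
    have inner : ∀ (D : ℕ) (c : Fin (2 * K) → Cube n),
        (∀ x : Cube n, lev x = m + 1 → ∃ i ∈ T, c i = x ∨ (hypercube n).Adj (c i) x) →
        ∑ i ∈ T', hammingDist (c i) (g i) = D →
        ∀ r : Cube n, lev r < m + 1 → CopsWin (hypercube n) c r := by
      intro D
      induction D with
      | zero =>
        intro c hc hD r hr
        rw [sum_eq_zero_iff] at hD
        have hd' : ∀ x : Cube n, lev x = m → ∃ i ∈ T', c i = x ∨ (hypercube n).Adj (c i) x := by
          intro x hx
          obtain ⟨y, hy, hyx⟩ := hdom m x hx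
          obtain ⟨i, hi, hgi⟩ := hg y hy
          refine ⟨i, hi, ?_⟩
          have : c i = g i := hammingDist_eq_zero.mp (hD i hi)
          rw [this, hgi]; exact hyx
        rcases Nat.lt_succ_iff_lt_or_eq.mp hr with h | h
        · exact ih c T' (by rw [hT'c]; exact hS m) hd' r h
        · exact win_of_dom (hd' r h)
      | succ D ihD =>
        intro c hc hD r hr
        have hex : ∃ i ∈ T', hammingDist (c i) (g i) ≠ 0 := by
          by_contra hcon
          push Not at hcon
          rw [sum_eq_zero hcon] at hD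
          omega
        obtain ⟨i, hi, hne⟩ := hex
        obtain ⟨z, hz, hzd⟩ := closer hne
        refine CopsWin.move c (Function.update c i z) r (Or.inr ⟨i, z, hz, rfl⟩) ?_
        intro r' hr'
        have hc' : ∀ x : Cube n, lev x = m + 1 →
            ∃ j ∈ T, (Function.update c i z) j = x ∨ (hypercube n).Adj ((Function.update c i z) j) x := by
          intro x hx
          obtain ⟨j, hj, hjx⟩ := hc x hx
          refine ⟨j, hj, ?_⟩
          have : j ≠ i := fun h => hdis i hi (h ▸ hj)
          rw [Function.update_of_ne this]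
          exact hjx
        have hlev : lev r' ≤ m + 1 := by
          rcases hr' with h | h
          · rw [h]; omega
          · have h1 : hammingDist r r' = 1 := h
            have := lev_le_add r r'
            omega
        rcases Nat.lt_or_eq_of_le hlev with h | h
        · refine ihD _ hc' ?_ r' h
          rw [← add_sum_erase T' _ hi] at hD ⊢
          rw [Function.update_self]
          have : ∑ j ∈ T'.erase i, hammingDist (Function.update c i z j) (g j)
              = ∑ j ∈ T'.erase i, hammingDist (c j) (g j) := by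
            apply sum_congr rfl
            intro j hj
            rw [Function.update_of_ne (ne_of_mem_erase hj)]
          rw [this]
          omega
        · exact win_of_dom (hc' r' h)
    exact inner _ c hTd rfl

lemma exists_win {n K r : ℕ} (hr : 2 ^ r ≤ n + 1) (hK : 3 * n.choose (n / 2) / 2 ^ r = K) :
    ∃ c : Fin (2 * K) → Cube n, ∀ x, CopsWin (hypercube n) c x := by
  classical
  choose S hS hdom using fun m => exists_dom (n := n) hr m
  have hS' : ∀ m, (S m).card ≤ K := by
    intro m
    rw [← hK, Nat.le_div_iff_mul_le (by positivity), mul_comm]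
    exact hS m
  have htop : lev (fun _ => true : Cube n) = n := by
    unfold lev; simp
  have hKpos : 0 < K := by
    obtain ⟨y, hy, -⟩ := hdom n (fun _ => true) htop
    have : 0 < (S n).card := card_pos.mpr ⟨y, hy⟩
    exact lt_of_lt_of_le this (hS' n)
  let i0 : Fin (2 * K) := ⟨0, by omega⟩
  refine ⟨fun _ _ => true, fun x => ?_⟩
  rcases Nat.lt_or_eq_of_le (lev_le x) with h | h
  · refine game S hS' hdom n _ {i0} (by rw [card_singleton]; exact hKpos) ?_ x h
    intro y hy
    exact ⟨i0, by simp, Or.inl (lev_eq_top y hy).symm⟩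
  · exact CopsWin.caught _ _ i0 (lev_eq_top x h).symm

/-! ## Asymptotics -/

lemma cb_bound (m : ℕ) : (Nat.centralBinom m) ^ 2 * (2 * m + 1) ≤ 16 ^ m := by
  induction m with
  | zero => simp
  | succ m ih =>
    have h := Nat.succ_mul_centralBinom_succ m
    have h1 : (m + 1) ^ 2 * ((Nat.centralBinom (m + 1)) ^ 2 * (2 * (m + 1) + 1))
        ≤ (m + 1) ^ 2 * 16 ^ (m + 1) := by
      calc (m + 1) ^ 2 * ((Nat.centralBinom (m + 1)) ^ 2 * (2 * (m + 1) + 1))
          = ((m + 1) * Nat.centralBinom (m + 1)) ^ 2 * (2 * m + 3) := by ring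
        _ = (2 * (2 * m + 1) * Nat.centralBinom m) ^ 2 * (2 * m + 3) := by rw [h]
        _ = (Nat.centralBinom m ^ 2 * (2 * m + 1)) * (4 * ((2 * m + 1) * (2 * m + 3))) := by ring
        _ ≤ 16 ^ m * (4 * ((2 * m + 1) * (2 * m + 3))) := Nat.mul_le_mul_right _ ih
        _ ≤ 16 ^ m * (16 * (m + 1) ^ 2) := by
            apply Nat.mul_le_mul_left
            nlinarith
        _ = _ := by ring
    exact Nat.le_of_mul_le_mul_left h1 (by positivity)

lemma choose_bound (n : ℕ) : (n.choose (n / 2)) ^ 2 * n ≤ 4 ^ n := by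
  rcases Nat.even_or_odd' n with ⟨m, rfl | rfl⟩
  · have h := cb_bound m
    have e : 2 * m / 2 = m := by omega
    rw [e]
    have e2 : (2 * m).choose m = Nat.centralBinom m := rfl
    rw [e2]
    calc Nat.centralBinom m ^ 2 * (2 * m) ≤ Nat.centralBinom m ^ 2 * (2 * m + 1) := by
          apply Nat.mul_le_mul_left; omega
      _ ≤ 16 ^ m := h
      _ = 4 ^ (2 * m) := by rw [pow_mul]; norm_num
  · have h := cb_bound (m + 1)
    have e : (2 * m + 1) / 2 = m := by omega
    rw [e]
    have e2 : Nat.centralBinom (m + 1) = 2 * (2 * m + 1).choose m := by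
      rw [Nat.centralBinom]
      have : 2 * (m + 1) = (2 * m + 1) + 1 := by ring
      rw [this, Nat.choose_succ_succ]
      have h3 : (2 * m + 1).choose (m + 1) = (2 * m + 1).choose m := by
        rw [← Nat.choose_symm_half]
      rw [h3]; ring
    rw [e2] at h
    have h4 : 4 * (((2 * m + 1).choose m) ^ 2 * (2 * m + 1)) ≤ 4 * 4 ^ (2 * m + 1) := by
      calc 4 * (((2 * m + 1).choose m) ^ 2 * (2 * m + 1))
          ≤ (2 * (2 * m + 1).choose m) ^ 2 * (2 * (m + 1) + 1) := by
            rw [mul_pow]
            nlinarith [Nat.zero_le (((2 * m + 1).choose m) ^ 2)]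
        _ ≤ 16 ^ (m + 1) := h
        _ = 4 * 4 ^ (2 * m + 1) := by
            have : (16 : ℕ) = 4 ^ 2 := by norm_num
            rw [this, ← pow_mul]; ring
    exact Nat.le_of_mul_le_mul_left h4 (by norm_num)

lemma choose_bound_real (n : ℕ) : (n.choose (n / 2) : ℝ) * √n ≤ 2 ^ n := by
  have h : ((n.choose (n / 2) : ℝ) * √n) ^ 2 ≤ (2 ^ n) ^ 2 := by
    rw [mul_pow, Real.sq_sqrt (Nat.cast_nonneg n), ← pow_mul, mul_comm n 2, pow_mul]
    have := choose_bound n
    have h2 : (((n.choose (n / 2)) ^ 2 * n : ℕ) : ℝ) ≤ ((4 ^ n : ℕ) : ℝ) := by exact_mod_cast this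
    push_cast at h2
    norm_num
    exact h2
  exact le_of_sq_le_sq h (by positivity)

/-- TARGET -/
theorem exists_upper : ∃ C : ℝ, 0 < C ∧ ∀ᶠ n : ℕ in Filter.atTop, ∃ k : ℕ,
    (k : ℝ) ≤ C * 2 ^ n / (n * √n) ∧
      ∃ c : Fin k → Cube n, ∀ r, CopsWin (hypercube n) c r := by
  refine ⟨12, by norm_num, ?_⟩
  filter_upwards [Filter.eventually_ge_atTop 1] with n hn
  set r := Nat.log 2 (n + 1) with hr
  have h1 : 2 ^ r ≤ n + 1 := Nat.pow_log_le_self 2 (by omega)
  have h2 : n + 1 < 2 ^ (r + 1) := Nat.lt_pow_succ_log_self (by norm_num) _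
  refine ⟨2 * (3 * n.choose (n / 2) / 2 ^ r), ?_, exists_win h1 rfl⟩
  have hnpos : (0 : ℝ) < n := by exact_mod_cast hn
  have hsq : 0 < √(n : ℝ) := Real.sqrt_pos.mpr hnpos
  have h3 : ((3 * n.choose (n / 2) / 2 ^ r : ℕ) : ℝ) ≤ 3 * n.choose (n / 2) / 2 ^ r := by
    have := @Nat.cast_div_le ℝ _ _ _ (3 * n.choose (n / 2)) (2 ^ r)
    push_cast at this
    exact this
  have h4 : (n : ℝ) ≤ 2 * 2 ^ r := by
    have : n ≤ 2 * 2 ^ r := by
      rw [pow_succ] at h2; omega
    exact_mod_cast this
  have hcb := choose_bound_real n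
  rw [le_div_iff₀ (by positivity)]
  push_cast
  have hp : (0 : ℝ) < 2 ^ r := by positivity
  have h5 : (2 * ((3 * n.choose (n / 2) / 2 ^ r : ℕ) : ℝ)) * (n * √n)
      ≤ (2 * (3 * n.choose (n / 2) / 2 ^ r)) * ((2 * 2 ^ r) * √n) := by
    gcongr
  refine h5.trans ?_
  have h6 : (2 * (3 * n.choose (n / 2) / 2 ^ r)) * ((2 * 2 ^ r) * √(n : ℝ))
      = 12 * (n.choose (n / 2) * √n) := by
    field_simp
    ring
  rw [h6]
  exact mul_le_mul_of_nonneg_left hcb (by norm_num)

end Up

end LazyCops
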